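import Pool.Agent.Helper13.TR.StC

/-!
# Project TR (MP_a45945_gt): definitions for the final statements
-/

set_option autoImplicit false

namespace Pool.Agent.Helper13.TR

open Set Topology

/-- `X` is a `ℤ`-homology 3-manifold: `H_k(X, X ∖ {x}; ℤ) = 0` for `k < 3` and
`H_3(X, X ∖ {x}; ℤ) ≅ ℤ`, for every point `x` (singular homology). -/
def IsHomology3Manifold (X : Type) [TopologicalSpace X] : Prop :=
  ∀ x : X, (∀ k : ℕ, k < 3 → Subsingleton (RelH X k {x})) ∧ Nonempty (RelH X 3 {x} ≃+ ℤ)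

/-- `X` is locally orientable: every point has an open neighbourhood `N` and a class of
`H_3(X, X ∖ N; ℤ)`, represented by the relative cycle `c`, whose image generates
`H_3(X, X ∖ {y}; ℤ)` for every `y ∈ N`. -/
def LocallyOrientable (X : Type) [TopologicalSpace X] : Prop :=
  ∀ x : X, ∃ N : Set X, IsOpen N ∧ x ∈ N ∧ ∃ c ∈ Cyc N 3, ∀ y ∈ N, ∃ hc : c ∈ Cyc ({y} : Set X) 3,
    ∀ h : RelH X 3 {y}, ∃ m : ℤ, h = m • Submodule.Quotient.mk ⟨c, hc⟩

/-- `X` is a topological `n`-manifold (the spaces here are metrizable): every point has an open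
neighbourhood homeomorphic to an open subset of `ℝ^n`. -/
def IsTopManifold (n : ℕ) (X : Type) [TopologicalSpace X] : Prop :=
  ∀ x : X, ∃ U : Set X, IsOpen U ∧ x ∈ U ∧ ∃ f : ↥U → EuclideanSpace ℝ (Fin n), IsOpenEmbedding f

/-- `f : M → X` is cell-like: it is proper and surjective, and every fibre is contractible in every
neighbourhood of itself. -/
def CellLike {M X : Type} [TopologicalSpace M] [TopologicalSpace X] (f : M → X) : Prop :=
  IsProperMap f ∧ Function.Surjective f ∧ ∀ (x : X) (U : Set M), IsOpen U → f ⁻¹' {x} ⊆ U →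
    ∃ (H : C(unitInterval × ↥(f ⁻¹' {x}), M)) (p : M), (∀ v, H (0, v) = v) ∧ (∀ v, H (1, v) = p) ∧
      ∀ t v, H (t, v) ∈ U

/-- `X` is resolvable: there is a cell-like map of a (metrizable) topological manifold onto `X`. -/
def Resolvable (X : Type) [TopologicalSpace X] : Prop :=
  ∃ (M : Type) (_ : TopologicalSpace M), TopologicalSpace.MetrizableSpace M ∧ (∃ n : ℕ, IsTopManifold n M) ∧
    ∃ f : M → X, CellLike f

theorem hm_of {X : Type} [TopologicalSpace X] (h1 : IsHomology3Manifold X) (h2 : LocallyOrientable X) :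
    HM X := by
  refine ⟨fun x k hk => ?_, fun x => ?_⟩
  · intro c hc
    have := (h1 x).1 k hk
    have h0 : (Submodule.Quotient.mk ⟨c, hc⟩ : RelH X k {x}) = 0 := Subsingleton.elim _ _
    rw [Submodule.Quotient.mk_eq_zero] at h0
    exact h0
  · obtain ⟨N, hN, hx, c, hc, hy⟩ := h2 x
    refine ⟨N, hN, hx, c, hc, fun y hyN => ?_⟩
    obtain ⟨hcy, hg⟩ := hy y hyN
    obtain ⟨φ⟩ := (h1 y).2
    have hmem : ∀ (d : Ch X 3) (hd : d ∈ Cyc ({y} : Set X) 3),
        (Submodule.Quotient.mk ⟨d, hd⟩ : RelH X 3 {y}) = 0 → d ∈ Nul ({y} : Set X) 3 := by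
      intro d hd h0
      rw [Submodule.Quotient.mk_eq_zero] at h0
      exact h0
    have hmem' : ∀ (d : Ch X 3) (hd : d ∈ Cyc ({y} : Set X) 3), d ∈ Nul ({y} : Set X) 3 →
        (Submodule.Quotient.mk ⟨d, hd⟩ : RelH X 3 {y}) = 0 := by
      intro d hd h0
      rw [Submodule.Quotient.mk_eq_zero]
      exact h0
    refine ⟨fun κ hκ => ?_, fun m hm => ?_⟩
    · obtain ⟨m, hm⟩ := hg (Submodule.Quotient.mk ⟨κ, hκ⟩)
      refine ⟨m, ?_⟩
      have hd : κ - m • c ∈ Cyc ({y} : Set X) 3 := Submodule.sub_mem _ hκ (Submodule.smul_mem _ _ hcy)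
      apply hmem _ hd
      have h2 : (Submodule.Quotient.mk ⟨κ - m • c, hd⟩ : RelH X 3 {y}) =
          Submodule.Quotient.mk ⟨κ, hκ⟩ - m • Submodule.Quotient.mk ⟨c, hcy⟩ := rfl
      rw [h2, hm, sub_self]
    · by_contra hm0
      have hd : m • c ∈ Cyc ({y} : Set X) 3 := Submodule.smul_mem _ _ hcy
      have h3 := hmem' _ hd hm
      have h4 : (Submodule.Quotient.mk ⟨m • c, hd⟩ : RelH X 3 {y}) =
          m • Submodule.Quotient.mk ⟨c, hcy⟩ := rfl
      rw [h4] at h3
      obtain ⟨k, hk⟩ := hg (φ.symm 1)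
      have h5 : m • φ.symm 1 = 0 := by
        rw [hk, smul_comm, h3, smul_zero]
      have h6 : φ (m • φ.symm 1) = m := by
        rw [map_zsmul, AddEquiv.apply_symm_apply]; simp
      rw [h5, map_zero] at h6
      exact hm0 h6.symm

theorem resolvable_of {X : Type} [TopologicalSpace X] [TopologicalSpace.MetrizableSpace X] (n : ℕ)
    (h : IsTopManifold n X) : Resolvable X := by
  refine ⟨X, inferInstance, inferInstance, ⟨n, h⟩, id, ?_, Function.surjective_id, ?_⟩
  · exact isProperMap_id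
  · intro x U _ hU
    refine ⟨⟨fun p => (p.2 : X), by fun_prop⟩, x, fun v => rfl, fun v => ?_, fun t v => hU v.2⟩
    exact v.2

/-- open subsets of `ℝ × ℝ × ℝ` and of Euclidean space -/
theorem man_of {X : Type} [TopologicalSpace X]
    (h : ∀ x : X, ∃ U : Set X, IsOpen U ∧ x ∈ U ∧ ∃ f : ↥U → ℝ × ℝ × ℝ, IsOpenEmbedding f) :
    IsTopManifold 3 X := by
  intro x
  obtain ⟨U, hU, hx, f, hf⟩ := h x
  let e : (ℝ × ℝ × ℝ) ≃ₜ EuclideanSpace ℝ (Fin 3) :=
    { toFun := fun p => (WithLp.toLp 2 ![p.1, p.2.1, p.2.2] : EuclideanSpace ℝ (Fin 3))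
      invFun := fun v => (v 0, v 1, v 2)
      left_inv := fun p => by simp
      right_inv := fun v => by
        ext i
        fin_cases i <;> simp
      continuous_toFun := by
        refine (PiLp.continuous_toLp 2 _).comp ?_
        refine continuous_pi fun i => ?_
        fin_cases i <;> simp <;> fun_prop
      continuous_invFun := by fun_prop }
  exact ⟨U, hU, hx, fun w => e (f w), e.isOpenEmbedding.comp hf⟩

end Pool.Agent.Helper13.TR
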