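import Pool.Agent.Helper13.TRM.M_CUT
import Pool.Agent.Helper13.TRM.M_SEPNLI
import Pool.Agent.Helper14.TR.M_T1
import Pool.Agent.Helper2.TR.M_CLO
import Pool.Agent.Helper2.TR.M_OPN
import Pool.Agent.Helper21.TR.M_LOC
import Pool.Agent.Helper22.TR.M_MSH
import Pool.Agent.Helper24.TR.M_CONMON
import Pool.Agent.Helper25.TR.M_CYC
import Pool.Agent.Helper26.TR.M_HOM
import Pool.Agent.Helper28.TR.M_SDA
import Pool.Agent.Helper30.TR.M_T1W
import Pool.Agent.Helper31.TR.M_CACB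
import Pool.Agent.Helper31.TR.M_RAY
import Pool.Agent.Helper34.TR.M_UPB
import Pool.Agent.Helper36.TR.M_FN2
import Pool.Agent.Helper37.TR.M_DBL
import Pool.Agent.Helper38.TR.M_LCP
import Pool.Agent.Helper38.TR.M_LNA
import Pool.Agent.Helper43.TR.M_PROPR2
import Pool.Agent.Helper58.TR.M_JOI
import Pool.Agent.Helper6.TR.M_FN1
import Pool.Agent.Helper63.TR.M_G1AG2A
import Pool.Agent.Helper63.TR.M_TRA
import Pool.Agent.Helper64.TR.M_A1D
import Pool.Agent.Helper65.TR.M_LOB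
import Pool.Agent.Helper66.TR.M_PRI
import Pool.Agent.Helper69.TR.M_MV
import Pool.Agent.Helper72.TR.M_ORD
import Pool.Agent.Helper72.TR.M_PSI
import Pool.Agent.Helper72.TR.M_TRI
import Pool.Agent.Helper75.TR.M_ABD
import Pool.Agent.Helper76.TR.M_P1LP2L
import Pool.Agent.Helper80.TR.M_IND
import Pool.Agent.Helper87.TR.M_SUS
import Pool.Agent.Helper9.TR.M_GCO
import Pool.Agent.Helper9.TR.M_SM
import Pool.Agent.Helper90.TR.M_BIS
import Pool.Agent.Helper94.TR.M_PSH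
import Pool.Agent.Helper96.TR.M_G2B
import Pool.Agent.Helper97.TR.M_SDE
import Pool.Agent.Helper99.TR.M_EXI
import Pool.Agent.Helper13.TR.MainDefs

/-!
# Project TR: assembly
-/

set_option autoImplicit false

namespace Pool.Agent.Helper13.TR


theorem aLNA : StLNA := Pool.Agent.Helper38.TR.hLNA
theorem aABD : StABD := Pool.Agent.Helper75.TR.hABD aLNA
theorem aMSH : StMSH := Pool.Agent.Helper22.TR.hMSH
theorem aSDA : StSDA := Pool.Agent.Helper28.TR.hSDA aLNA aABD aMSH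
theorem aSDE : StSDE := Pool.Agent.Helper97.TR.hSDE aLNA aABD aMSH
theorem aSM : StSM := Pool.Agent.Helper9.TR.hSM aSDA aSDE
theorem aPSH : StPSH := Pool.Agent.Helper94.TR.hPSH
theorem aPRI : StPRI := Pool.Agent.Helper66.TR.hPRI aLNA
theorem aMV : StMV := Pool.Agent.Helper69.TR.hMV aSM aSDA
theorem aCON : StCON := Pool.Agent.Helper24.TR.hCON
theorem aMON : StMON := Pool.Agent.Helper24.TR.hMON
theorem aEXI : StEXI := Pool.Agent.Helper99.TR.hEXI aSM aSDA aPSH aMON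
theorem aOPN : StOPN := Pool.Agent.Helper2.TR.hOPN aSM aSDA aPSH aMON aEXI
theorem aHOM : StHOM := Pool.Agent.Helper26.TR.hHOM aPSH
theorem aJOI : StJOI := Pool.Agent.Helper58.TR.hJOI
theorem aCUT : StCUT := Pool.Agent.Helper13.TRM.hCUT aMV aCON aMON
theorem aCLO : StCLO := Pool.Agent.Helper2.TR.hCLO
theorem aBIS : StBIS := Pool.Agent.Helper90.TR.hBIS aMV aCON aMON
theorem aP1L : StP1L := Pool.Agent.Helper76.TR.hP1L aBIS aMON
theorem aRAY : StRAY := Pool.Agent.Helper31.TR.hRAY aMV aCON aMON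
theorem aP2L : StP2L := Pool.Agent.Helper76.TR.hP2L aRAY aMV aMON
theorem aCA : StCA := Pool.Agent.Helper31.TR.hCA aCUT aCLO aP2L aMON
theorem aCB : StCB := Pool.Agent.Helper31.TR.hCB aCUT aCA aP1L aMV aMON
theorem aSEP : StSEP := Pool.Agent.Helper13.TRM.hSEP aJOI aMON aSDA
theorem aNLI : StNLI := Pool.Agent.Helper13.TRM.hNLI aSEP aMON aJOI
theorem aT1W : StT1W := Pool.Agent.Helper30.TR.hT1W aCB aSEP aNLI
theorem aT1 : StT1 := Pool.Agent.Helper14.TR.hT1 aT1W aOPN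
theorem aIND : StIND := Pool.Agent.Helper80.TR.hIND
theorem aG1A : StG1A := Pool.Agent.Helper63.TR.hG1A aIND
theorem aG2A : StG2A := Pool.Agent.Helper63.TR.hG2A aIND
theorem aG2B : StG2B := Pool.Agent.Helper96.TR.hG2B aIND
theorem aPRO : StPRO := Pool.Agent.Helper43.TR.hPRO aT1
theorem aPR2 : StPR2 := Pool.Agent.Helper43.TR.hPR2 aPRO aG2B
theorem aSUS : StSUS := Pool.Agent.Helper87.TR.hSUS aSM aSDA aPRI aPSH aMON aCON
theorem aCYC : StCYC := Pool.Agent.Helper25.TR.hCYC aRAY aBIS aP1L aMV aMON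
theorem aUPB : StUPB := Pool.Agent.Helper34.TR.hUPB aCYC aJOI aMON aSDA
theorem aLOB : StLOB := Pool.Agent.Helper65.TR.hLOB aSUS aSM aSDA aJOI aMON
theorem aDBL : StDBL := Pool.Agent.Helper37.TR.hDBL aCUT aCLO aJOI aSDA aMON
theorem aTRI : StTRI := Pool.Agent.Helper72.TR.hTRI
theorem aORD : StORD := Pool.Agent.Helper72.TR.hORD aTRI
theorem aPSI : StPSI := Pool.Agent.Helper72.TR.hPSI
theorem aA1D : StA1D := Pool.Agent.Helper64.TR.hA1D aOPN aHOM aUPB aLOB aDBL aORD aPSI aMON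
theorem aLCP : StLCP := Pool.Agent.Helper38.TR.hLCP aPRI aPSH aSDA aMON
theorem aTRA : StTRA := Pool.Agent.Helper63.TR.hTRA aPSH
theorem aLOC : StLOC := Pool.Agent.Helper21.TR.hLOC
theorem aGCO : StGCO := Pool.Agent.Helper9.TR.hGCO
theorem aFN1 : StFN1 := Pool.Agent.Helper6.TR.hFN1 aLOC aGCO aIND aG2A aPRO aOPN
theorem aFN2 : StFN2 := Pool.Agent.Helper36.TR.hFN2 aLOC aGCO aIND aG1A aPR2 aOPN aHOM aTRA aA1D aPSH aMON

end Pool.Agent.Helper13.TR
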