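import Mathlib

/-!
# Project TR (MP_a45945_gt): definitions

Singular chains with integer coefficients, relative homology `H_n(X, X ∖ B)`, homology 3-manifolds,
small inductive dimension.
-/

set_option autoImplicit false

namespace Pool.Agent.Helper13.TR

open Set Topology

/-! ## Singular chains -/

/-- The standard `n`-simplex. -/
abbrev Dl (n : ℕ) : Type := stdSimplex ℝ (Fin (n + 1))

/-- The singular `n`-simplices of `X`: continuous maps from the standard `n`-simplex. -/
abbrev Sx (X : Type*) [TopologicalSpace X] (n : ℕ) := C(Dl n, X)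

/-- The group of singular `n`-chains of `X` with integer coefficients. -/
abbrev Ch (X : Type*) [TopologicalSpace X] (n : ℕ) := Sx X n →₀ ℤ

/-- The inclusion of the `i`-th face (the vertex `j` goes to the vertex `i.succAbove j`). -/
noncomputable def face (n : ℕ) (i : Fin (n + 2)) : C(Dl n, Dl (n + 1)) :=
  ⟨stdSimplex.map i.succAbove, stdSimplex.continuous_map _⟩

section chains

variable {X : Type*} [TopologicalSpace X]

/-- The boundary operator, `∂ σ = ∑ (-1)^i σ ∘ face i`. -/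
noncomputable def bd (n : ℕ) : Ch X (n + 1) →ₗ[ℤ] Ch X n :=
  Finsupp.linearCombination ℤ fun σ : Sx X (n + 1) =>
    ∑ i : Fin (n + 2), ((-1 : ℤ) ^ (i : ℕ)) • Finsupp.single (σ.comp (face n i)) (1 : ℤ)

/-- The map on chains induced by a continuous map. -/
noncomputable def push {Y : Type*} [TopologicalSpace Y] (f : C(X, Y)) (n : ℕ) :
    Ch X n →ₗ[ℤ] Ch Y n :=
  Finsupp.lmapDomain ℤ ℤ fun σ => f.comp σ

/-- The chains all of whose simplices have image in `S`. -/
noncomputable def cin (S : Set X) (n : ℕ) : Submodule ℤ (Ch X n) :=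
  Finsupp.supported ℤ ℤ {σ : Sx X n | range σ ⊆ S}

/-- The chains whose boundary is in `M`; in degree `0` all chains. -/
noncomputable def BdIn (M : ∀ k : ℕ, Submodule ℤ (Ch X k)) : ∀ n : ℕ, Submodule ℤ (Ch X n)
  | 0 => ⊤
  | n + 1 => (M n).comap (bd n)

/-- The relative cycles of the pair `(X, X ∖ B)`. -/
noncomputable def Cyc (B : Set X) : ∀ n : ℕ, Submodule ℤ (Ch X n) := BdIn fun k => cin Bᶜ k

/-- The relative boundaries of the pair `(X, X ∖ B)`: `C_n(X ∖ B) + ∂ C_{n+1}(X)`. -/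
noncomputable def Nul (B : Set X) (n : ℕ) : Submodule ℤ (Ch X n) := cin Bᶜ n ⊔ LinearMap.range (bd n)

/-- `H_n(X, X ∖ B) = 0`. -/
def PP (B : Set X) (n : ℕ) : Prop := Cyc B n ≤ Nul B n

/-- `c` is a free generator of the infinite cyclic group `H_3(X, X ∖ {y})`. -/
def Gen (y : X) (c : Ch X 3) : Prop :=
  (∀ κ ∈ Cyc {y} 3, ∃ m : ℤ, κ - m • c ∈ Nul {y} 3) ∧ ∀ m : ℤ, m • c ∈ Nul {y} 3 → m = 0

/-- The point `x` as a singular `0`-simplex. -/
def pt (x : X) : Sx X 0 := ContinuousMap.const _ x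

/-- The sum of the coefficients of the points of `T` in a `0`-chain. -/
noncomputable def ev (T : Set X) : Ch X 0 →ₗ[ℤ] ℤ :=
  Finsupp.linearCombination ℤ fun σ : Sx X 0 => by
    classical
    exact if σ (stdSimplex.vertex 0) ∈ T then (1 : ℤ) else 0

/-- The relation of the Mayer-Vietoris boundary operator: `σ` (degree `k`, relative to `A₁ ∪ A₂`) and
`τ` (degree `k + 1`, relative to `A₁ ∩ A₂`). -/
def MVR (A₁ A₂ : Set X) (k : ℕ) (τ : Ch X (k + 1)) (σ : Ch X k) : Prop :=
  ∃ b₁ b₂ : Ch X (k + 1), b₁ - b₂ = τ ∧ σ - bd k b₁ ∈ cin A₁ᶜ k ∧ σ - bd k b₂ ∈ cin A₂ᶜ k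

end chains

/-- The relative singular homology group `H_n(X, X ∖ B; ℤ)`. -/
abbrev RelH (X : Type*) [TopologicalSpace X] (n : ℕ) (B : Set X) : Type _ :=
  ↥(Cyc B n) ⧸ (Nul B n).comap (Cyc B n).subtype

/-- Locally oriented homology 3-manifold (working form): `H_k(X, X ∖ {x}) = 0` for `k < 3`, and every
point has an open neighbourhood `N` and a relative cycle `c` of `(X, X ∖ N)` which is a free generator
of `H_3(X, X ∖ {y})` for all `y ∈ N`. -/
structure HM (X : Type*) [TopologicalSpace X] : Prop where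
  low : ∀ (x : X) (k : ℕ), k < 3 → PP {x} k
  ori : ∀ x : X, ∃ N : Set X, IsOpen N ∧ x ∈ N ∧ ∃ c ∈ Cyc N 3, ∀ y ∈ N, Gen y c

/-! ## Affine chains in a standard simplex, barycentric subdivision -/

/-- The affine simplices with vertices in `Dl n` (ordered lists of `k + 1` points). -/
abbrev Av (n k : ℕ) := Fin (k + 1) → Dl n

/-- The affine map `Dl k → Dl n` with given values at the vertices, `t ↦ ∑ t_i v_i`. -/
noncomputable def lin {n k : ℕ} (v : Av n k) : C(Dl k, Dl n) where
  toFun t := ⟨∑ i, t i • (v i : Fin (n + 1) → ℝ),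
    (convex_stdSimplex ℝ (Fin (n + 1))).sum_mem (fun i _ => t.2.1 i) t.2.2 (fun i _ => (v i).2)⟩
  continuous_toFun := by
    refine Continuous.subtype_mk ?_ _
    refine continuous_finsetSum _ fun i _ => ?_
    exact (((continuous_apply i).comp continuous_subtype_val)).smul continuous_const

/-- affine chains -/
abbrev AC (n k : ℕ) := Av n k →₀ ℤ

/-- boundary of affine chains -/
noncomputable def abd {n : ℕ} (k : ℕ) : AC n (k + 1) →ₗ[ℤ] AC n k :=
  Finsupp.linearCombination ℤ fun v : Av n (k + 1) =>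
    ∑ i : Fin (k + 2), ((-1 : ℤ) ^ (i : ℕ)) • Finsupp.single (v ∘ i.succAbove) (1 : ℤ)

/-- the cone with vertex `b` -/
noncomputable def acone {n k : ℕ} (b : Dl n) : AC n k →ₗ[ℤ] AC n (k + 1) :=
  Finsupp.lmapDomain ℤ ℤ fun v : Av n k => (Fin.cons b v : Av n (k + 1))

/-- the barycentre -/
noncomputable def bary {n k : ℕ} (v : Av n k) : Dl n := lin v stdSimplex.barycenter

/-- barycentric subdivision of affine chains -/
noncomputable def asd {n : ℕ} : ∀ k : ℕ, AC n k →ₗ[ℤ] AC n k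
  | 0 => LinearMap.id
  | k + 1 => Finsupp.linearCombination ℤ fun v : Av n (k + 1) =>
      acone (bary v) (asd k (abd k (Finsupp.single v 1)))

/-- the chain homotopy from the identity to the barycentric subdivision -/
noncomputable def ath {n : ℕ} : ∀ k : ℕ, AC n k →ₗ[ℤ] AC n (k + 1)
  | 0 => 0
  | k + 1 => Finsupp.linearCombination ℤ fun v : Av n (k + 1) =>
      acone (bary v) (Finsupp.single v 1 - ath k (abd k (Finsupp.single v 1)))

/-- image of affine chains under a map of the vertices -/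
noncomputable def amap {n m : ℕ} (f : Dl n → Dl m) (k : ℕ) : AC n k →ₗ[ℤ] AC m k :=
  Finsupp.lmapDomain ℤ ℤ fun v : Av n k => f ∘ v

/-- the identity simplex of `Dl n` -/
noncomputable def iot (n : ℕ) : Av n n := fun i => stdSimplex.vertex i

section act

variable {X : Type*} [TopologicalSpace X]

/-- the singular chain `σ ∘ a` for an affine chain `a` and a singular simplex `σ` -/
noncomputable def act {n : ℕ} (σ : Sx X n) (k : ℕ) : AC n k →ₗ[ℤ] Ch X k :=
  Finsupp.lmapDomain ℤ ℤ fun v : Av n k => σ.comp (lin v)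

/-- barycentric subdivision of singular chains -/
noncomputable def Sd (n : ℕ) : Ch X n →ₗ[ℤ] Ch X n :=
  Finsupp.linearCombination ℤ fun σ : Sx X n => act σ n (asd n (Finsupp.single (iot n) 1))

/-- the chain homotopy on singular chains -/
noncomputable def Th (n : ℕ) : Ch X n →ₗ[ℤ] Ch X (n + 1) :=
  Finsupp.linearCombination ℤ fun σ : Sx X n => act σ (n + 1) (ath n (Finsupp.single (iot n) 1))

end act

/-! ## Dimension -/

/-- Small inductive dimension: `IndLT n Y` says `ind Y < n`, that is `ind Y ≤ n - 1`.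
`IndLT 0 Y`: `Y` is empty.  `IndLT (n + 1) Y`: every point has arbitrarily small open neighbourhoods
`V` whose frontier satisfies `IndLT n`. -/
def IndLT : ℕ → ∀ (Y : Type) [TopologicalSpace Y], Prop
  | 0, Y, _ => IsEmpty Y
  | n + 1, Y, _ => ∀ (y : Y) (U : Set Y), IsOpen U → y ∈ U →
      ∃ V : Set Y, IsOpen V ∧ y ∈ V ∧ V ⊆ U ∧ IndLT n ↥(frontier V)

/-- compact and zero-dimensional -/
def Z0 {Z : Type} [TopologicalSpace Z] (L : Set Z) : Prop := IsCompact L ∧ IsTotallyDisconnected L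

/-- compact sets which can be cut into small closed pieces by compact zero-dimensional sets -/
inductive Z1 {Z : Type} [TopologicalSpace Z] : Set Z → Prop
  | base (K : Set Z) (hK : IsCompact K)
      (h : ∀ y ∈ K, ∀ O : Set Z, IsOpen O → y ∈ O →
        ∃ E F : Set Z, IsClosed E ∧ IsClosed F ∧ E ∪ F = K ∧ E ⊆ O ∧ y ∉ F ∧ Z0 (E ∩ F)) : Z1 K
  | union (K₁ K₂ : Set Z) (h₁ : Z1 K₁) (h₂ : Z1 K₂) (h₃ : Z0 (K₁ ∩ K₂)) : Z1 (K₁ ∪ K₂)

/-- the space can be cut at every point by compact zero-dimensional sets -/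
def G1 (Y : Type) [TopologicalSpace Y] : Prop :=
  ∀ (y : Y) (O : Set Y), IsOpen O → y ∈ O →
    ∃ E F : Set Y, IsClosed E ∧ IsClosed F ∧ E ∪ F = univ ∧ E ⊆ O ∧ y ∉ F ∧ Z0 (E ∩ F)

/-- the space can be cut at every point by sets of the class `Z1` -/
def G2 (Y : Type) [TopologicalSpace Y] : Prop :=
  ∀ (y : Y) (O : Set Y), IsOpen O → y ∈ O →
    ∃ E F : Set Y, IsClosed E ∧ IsClosed F ∧ E ∪ F = univ ∧ E ⊆ O ∧ y ∉ F ∧ Z1 (E ∩ F)

/-- one-dimensional cycles bound locally -/
def LH1 (X : Type) [TopologicalSpace X] : Prop :=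
  ∀ (x : X) (U : Set X), IsOpen U → x ∈ U → ∃ V : Set X, IsOpen V ∧ x ∈ V ∧ V ⊆ U ∧
    ∀ z ∈ cin V 1, bd 0 z = 0 → ∃ e ∈ cin U 2, bd 1 e = z

end Pool.Agent.Helper13.TR
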