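import Pool.Agent.Helper13.TR.Asm

/-!
# Project TR: the final theorems
-/

set_option autoImplicit false

namespace Pool.Agent.Helper13.TR

open Set Topology

theorem plane_product (X : Type) [TopologicalSpace X] [TopologicalSpace.MetrizableSpace X]
    [LocallyCompactSpace X] (hlc : LocContr X) (hm : IsHomology3Manifold X) (ho : LocallyOrientable X)
    (hemb : ∀ x : X, ∃ N ∈ 𝓝 x, ∃ (C : Type) (_ : TopologicalSpace C),
      TopologicalSpace.MetrizableSpace C ∧ IndLT 2 C ∧ ∃ j : ↥N → ℝ × ℝ × C, IsEmbedding j) :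
    IsTopManifold 3 X ∧ Resolvable X := by
  have hM : HM X := hm_of hm ho
  obtain ⟨hL, hH⟩ := aLCP X hlc
  have h3 : IsTopManifold 3 X := by
    apply man_of
    intro x
    obtain ⟨N, hN, C, _, _, hC, j, hj⟩ := hemb x
    exact aFN2 X C hM hH hC x N hN j hj
  exact ⟨h3, resolvable_of 3 h3⟩

theorem line_product (X : Type) [TopologicalSpace X] [TopologicalSpace.MetrizableSpace X]
    [LocallyCompactSpace X] (hlc : LocContr X) (hm : IsHomology3Manifold X) (ho : LocallyOrientable X)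
    (hemb : ∀ x : X, ∃ N ∈ 𝓝 x, ∃ (Y : Type) (_ : TopologicalSpace Y),
      TopologicalSpace.MetrizableSpace Y ∧ IndLT 3 Y ∧ ∃ j : ↥N → ℝ × Y, IsEmbedding j) (x : X) :
    ∃ U : Set X, IsOpen U ∧ x ∈ U ∧ ∃ (A : Type) (_ : TopologicalSpace A), Nonempty (↥U ≃ₜ ℝ × A) := by
  have hM : HM X := hm_of hm ho
  obtain ⟨hL, _⟩ := aLCP X hlc
  obtain ⟨N, hN, Y, _, _, hY, j, hj⟩ := hemb x
  exact aFN1 X Y hM hY x N hN j hj

end Pool.Agent.Helper13.TR
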