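import Pool.Agent.Helper13.TR.Defs

/-!
# Project TR, part A: singular homology (statements)

Every statement is a `Prop`; a module proves it as a theorem whose hypotheses are the statements named in its docstring after the word Uses.
All are elementary.  Notation: `PP B n` means `H_n(X, X ∖ B) = 0`, `Nul B n` are the relative boundaries, `Cyc B n` the relative cycles of the pair `(X, X ∖ B)`.
-/

set_option autoImplicit false

namespace Pool.Agent.Helper13.TR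

open Set Topology

/-- LNA.  Affine maps between standard simplices.
PROOF.  Everything is checked on coordinates.  (1) `lin v (vertex i) = v i`: the sum `∑_j t_j v_j` with `t = vertex i`.  (2) `face n i = lin (fun j => vertex (i.succAbove j))`:
`stdSimplex.map` is `FunOnFinite.linearMap`; coordinate `l` of both sides is `∑_{j, i.succAbove j = l} t_j`.  (3) `lin u (lin v t) = ∑_a (∑_i t_i (v_i)_a) u_a = ∑_i t_i lin u (v_i)` (swap the sums).
(4) from (2), (3), (1): `(lin v).comp (face k i) = lin (v ∘ i.succAbove)`.  (5) `lin (iot n) = id`: coordinate `l` of `∑ t_i vertex i` is `t_l`. -/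
def StLNA : Prop :=
  (∀ (n k : ℕ) (v : Av n k) (i : Fin (k + 1)), lin v (stdSimplex.vertex i) = v i) ∧
  (∀ (n : ℕ) (i : Fin (n + 2)), face n i = lin fun j => stdSimplex.vertex (i.succAbove j)) ∧
  (∀ (n m k : ℕ) (u : Av m n) (v : Av n k), (lin u).comp (lin v) = lin (lin u ∘ v)) ∧
  (∀ (n k : ℕ) (v : Av n (k + 1)) (i : Fin (k + 2)), (lin v).comp (face k i) = lin (v ∘ i.succAbove)) ∧
  (∀ n : ℕ, lin (iot n) = ContinuousMap.id (Dl n))

/-- ABD.  Algebra of the affine subdivision.  Uses `StLNA`.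
PROOF.  (a) `abd ∘ abd = 0`: the usual double sum, or: put `ε [v] = 1` in degree `0`; for the cone `abd (acone b c) = c - acone b (abd c)` in positive degree and `abd 0 (acone b c) = c - ε(c) [b]` for `c` of degree `0` (`Fin.sum_univ_succ`,
`Fin.cons` and `succAbove`), every simplex of positive dimension is `acone (v 0) [tail v]`, so `abd abd [v] = abd ([tail v] - acone (v 0) (abd [tail v])) = abd [tail v] - (abd [tail v] - acone (v 0) (abd abd [tail v])) = 0` by induction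
(in the lowest degree: `abd [tail v] = [v 2] - [v 1]` has `ε = 0`, and `abd abd [v] = abd [tail v] - (abd [tail v] - 0)`).
(b) induction on `k`; for `c = [v]`, `b = bary v`: `abd (asd [v]) = abd (acone b (asd (abd [v]))) = asd (abd [v]) - acone b (abd (asd (abd [v])))` and `abd asd abd = asd abd abd = 0`; in degree `k = 0`: `asd 0 = id`, `abd (acone b (abd [v])) = abd [v] - ε (abd [v]) [b] = abd [v]`.
(c) induction: `abd (ath [v]) = abd (acone b ([v] - ath (abd [v]))) = [v] - ath (abd [v]) - acone b (abd [v] - abd (ath (abd [v])))` and `abd ath abd [v] = abd [v] - asd abd [v] - ath (abd abd [v]) = abd [v] - asd (abd [v])`, so the last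
bracket is `asd (abd [v])` and `acone b (asd (abd [v])) = asd [v]`.  (positive degree everywhere: `ath 0 = 0`; for `k = 0` the formula reads `abd (acone b [v]) + 0 = [v] - acone b (abd [v])`.)
(d) `lin u` is affine: `lin u (bary v) = bary (lin u ∘ v)` (`StLNA` (3)), it commutes with `acone` and `abd`; induction on `k`. -/
def StABD : Prop :=
  (∀ (n k : ℕ) (c : AC n (k + 2)), abd k (abd (k + 1) c) = 0) ∧
  (∀ (n k : ℕ) (c : AC n (k + 1)), abd k (asd (k + 1) c) = asd k (abd k c)) ∧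
  (∀ (n k : ℕ) (c : AC n (k + 1)), abd (k + 1) (ath (k + 1) c) + ath k (abd k c) = c - asd (k + 1) c) ∧
  (∀ (n m k : ℕ) (u : Av m n) (c : AC n k), amap (lin u) k (asd k c) = asd k (amap (lin u) k c)) ∧
  (∀ (n m k : ℕ) (u : Av m n) (c : AC n k), amap (lin u) (k + 1) (ath k c) = ath k (amap (lin u) k c))

/-- MSH.  The mesh of the barycentric subdivision.
PROOF.  Induction on `k` (distances in `Dl n`, a subtype of `Fin (n + 1) → ℝ` with the sup norm; `w j`, `v i` are the vertices).  Claim for `w` in the support of `asd k [v]`: every `w j` is a convex combination of the `v i` (is in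
`range (lin v)`), and `dist (w j) (w j') ≤ k/(k+1) D` if all `dist (v i) (v i') ≤ D`.  Step: `w = Fin.cons (bary v) w'`, `w'` in the support of `asd k [v ∘ i.succAbove]` for some `i`.  Two vertices of `w'`: induction and `k/(k+1) ≤ (k+1)/(k+2)`.
`bary v` and a vertex `x` of `w'`: `x` is in `range (lin v)`; `dist (bary v) x ≤ max_i dist (bary v) (v i)` (convexity of the distance) and `bary v - v i = (1/(k+2)) ∑_j (v j - v i)`, at most `k + 1` nonzero terms, so `≤ (k+1)/(k+2) D`.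
The simplices `w` in the support of `ath k [v]` have vertices in `range (lin v)` (same induction). `range (lin w) ⊆ range (lin v)` follows from the vertices: `lin w t` is a convex combination of the `w j = lin v (s_j)`, i.e. `lin v (lin s t)`. -/
def StMSH : Prop :=
  (∀ (n k : ℕ) (v : Av n k) (D : ℝ), (∀ i j, dist (v i) (v j) ≤ D) →
    ∀ w ∈ (asd k (Finsupp.single v 1)).support, range (lin w) ⊆ range (lin v) ∧
      ∀ i j, dist (w i) (w j) ≤ (k : ℝ) / (k + 1) * D) ∧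
  (∀ (n k : ℕ) (v : Av n k), ∀ w ∈ (ath k (Finsupp.single v 1)).support, range (lin w) ⊆ range (lin v))

/-- SDA.  Subdivision of singular chains.  Uses `StLNA`, `StABD`, `StMSH`.
PROOF.  `bd (act σ a) = act σ (abd a)` (`StLNA` (4)); `act (σ.comp (lin u)) a = act σ (amap (lin u) a)` (`StLNA` (3)), in particular for `lin u = face`.  A singular simplex is `σ = act σ [iot n]` (`StLNA` (5)).
(a) `bd bd σ = act σ (abd abd [iot])= 0`.  (b) `Sd (act σ a) = act σ (asd a)`: for `a = [v]`: `Sd (σ ∘ lin v) = act (σ ∘ lin v) (asd [iot]) = act σ (amap (lin v) (asd [iot])) = act σ (asd [v])` by `StABD` (4).  So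
`bd Sd σ = act σ (abd asd [iot]) = act σ (asd abd [iot]) = Sd (bd σ)`.  (c) in the same way `Th (act σ a) = act σ (ath a)`, and `StABD` (3).  (d) the simplices `σ ∘ lin w` have image in the image of `σ`. -/
def StSDA : Prop := ∀ (X : Type) [TopologicalSpace X],
  (∀ (n : ℕ) (c : Ch X (n + 2)), bd n (bd (n + 1) c) = 0) ∧
  (∀ (n : ℕ) (c : Ch X (n + 1)), bd n (Sd (n + 1) c) = Sd n (bd n c)) ∧
  (∀ (n : ℕ) (c : Ch X (n + 1)), bd (n + 1) (Th (n + 1) c) + Th n (bd n c) = c - Sd (n + 1) c) ∧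
  (∀ c : Ch X 0, bd 0 (Th 0 c) = c - Sd 0 c) ∧
  (∀ (S : Set X) (n : ℕ), ∀ c ∈ cin S n, Sd n c ∈ cin S n ∧ Th n c ∈ cin S (n + 1))

/-- SDE.  Iterated subdivisions become small.  Uses `StLNA`, `StABD`, `StMSH`.
PROOF.  Enough for one simplex `σ : Dl n → X` with image in `O₁ ∪ O₂` (take the maximum of the `m`; once in `cin O₁ ⊔ cin O₂` always there: `Sd` preserves `cin O_i`).  The sets `σ⁻¹ O₁`, `σ⁻¹ O₂` are an open cover of the compact metric space
`Dl n`; Lebesgue number `δ` (`lebesgue_number_lemma_of_metric`): every subset of diameter `< δ` is in one of them.  `Sd^m σ = act σ (asd^m [iot n])` (see SDA) and by `StMSH` all simplices `w` of `asd^m [iot n]` have vertices at distance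
`≤ (n/(n+1))^m · 1 → 0`; the diameter of `range (lin w)` is the maximal distance of the vertices (convexity), or simply: `range (lin w)` is in the ball with centre `w 0` and that radius. -/
def StSDE : Prop := ∀ (X : Type) [TopologicalSpace X] (O₁ O₂ : Set X), IsOpen O₁ → IsOpen O₂ →
  ∀ (n : ℕ), ∀ c ∈ cin (O₁ ∪ O₂) n, ∃ m : ℕ, ((Sd n)^[m]) c ∈ cin O₁ n ⊔ cin O₂ n

/-- SM.  Small chains.  Uses `StSDA`, `StSDE`.
PROOF.  Induction on `m` (of SDE): claim: if `(Sd n)^[m] c ∈ cin O₁ ⊔ cin O₂` then the conclusion.  `m = 0` clear.  Step: put `c' = Sd c`; `c = c' + bd (Th c) + Th (bd c)` (in degree `0` without the last term); `c' ∈ cin (O₁ ∪ O₂)`, `bd c' = Sd (bd c) ∈ cin O₁ ⊔ cin O₂`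
(`Sd` preserves each), so the induction hypothesis applies to `c'`; `Th (bd c) ∈ cin O₁ ⊔ cin O₂`, `Th c ∈ cin (O₁ ∪ O₂)`. -/
def StSM : Prop := ∀ (X : Type) [TopologicalSpace X] (O₁ O₂ : Set X), IsOpen O₁ → IsOpen O₂ →
  ∀ (n : ℕ), ∀ c ∈ cin (O₁ ∪ O₂) n, c ∈ BdIn (fun k => cin O₁ k ⊔ cin O₂ k) n →
    ∃ c₁ ∈ cin O₁ n, ∃ c₂ ∈ cin O₂ n, ∃ e ∈ cin (O₁ ∪ O₂) (n + 1), c = c₁ + c₂ + bd n e

/-- PSH.  Functoriality.
PROOF.  (1)-(3) on single simplices (`Finsupp.lmapDomain`, `Finsupp.mapDomain_single`).  (4) `Finsupp.mapDomain_injective` and injectivity of `σ ↦ f ∘ σ`.  (5) `f` inducing and injective: a simplex `σ` with image in `f '' S` factors as `f ∘ σ'` with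
`σ'` continuous (`IsEmbedding`, `Topology.IsInducing.continuous_iff`), its image is in `S`; linear combinations. -/
def StPSH : Prop := ∀ (X Y Z : Type) [TopologicalSpace X] [TopologicalSpace Y] [TopologicalSpace Z] (f : C(X, Y)) (g : C(Y, Z)),
  (∀ (n : ℕ) (c : Ch X (n + 1)), bd n (push f (n + 1) c) = push f n (bd n c)) ∧
  (∀ (n : ℕ) (c : Ch X n), push (g.comp f) n c = push g n (push f n c)) ∧
  (∀ (S : Set Y) (n : ℕ), ∀ c ∈ cin (f ⁻¹' S) n, push f n c ∈ cin S n) ∧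
  (Function.Injective f → ∀ n : ℕ, Function.Injective (push f n)) ∧
  (IsEmbedding f → ∀ (S : Set X) (n : ℕ), ∀ c ∈ cin (f '' S) n, ∃ c' ∈ cin S n, push f n c' = c) ∧
  (Function.Injective f → ∀ (S : Set Y) (n : ℕ) (c : Ch X n), push f n c ∈ cin S n → c ∈ cin (f ⁻¹' S) n)

/-- PRI.  Homotopy invariance with carriers.  Uses `StLNA`.
PROOF.  Prism operator.  Method of cones: in the convex compact set `Q_n = Dl n × [0,1]` use affine chains (formal sums of ordered lists of points of `Q_n`) with cone operator `b·` as in `StABD` (`∂ (b·c) = c - b·∂c`, in degree `0`: `∂ (b·c) = c - ε(c) [b]`).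
Let `i_t [v] = [(v, t)]` for an affine chain of `Dl n` (`t = 0, 1`).  Define `a_n` (affine chain of degree `n + 1` in `Q_n`) by recursion, `a_n = b · (i_1 ι_n - i_0 ι_n - ∑_j (-1)^j (face_j × id) a_{n-1})`, `ι_n = [vertices]`, `b` = any fixed point of `Q_n`; the bracket is a
cycle (of augmentation `0` if `n = 0`), by `∂∂ = 0` and the simplicial identities; so `∂ a_n = i_1 ι_n - i_0 ι_n - ∑_j (-1)^j (face_j × id) a_{n-1}`.  Put `P σ = (H ∘ (σ × id)) ∘ a_n`.  Or the classical formula `∑ (-1)^i [v_0..v_i, w_i..w_n]`.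
`P σ` has its simplices in `{H (t, x) | x ∈ range σ}`. -/
def StPRI : Prop := ∀ (X Y : Type) [TopologicalSpace X] [TopologicalSpace Y] (f g : C(X, Y)) (H : f.Homotopy g),
  ∃ P : ∀ n : ℕ, Ch X n →ₗ[ℤ] Ch Y (n + 1),
    (∀ c : Ch X 0, bd 0 (P 0 c) = push g 0 c - push f 0 c) ∧
    (∀ (n : ℕ) (c : Ch X (n + 1)), bd (n + 1) (P (n + 1) c) + P n (bd n c) = push g (n + 1) c - push f (n + 1) c) ∧
    (∀ (S : Set X) (n : ℕ), ∀ c ∈ cin S n, P n c ∈ cin {y | ∃ x ∈ S, ∃ t, H (t, x) = y} (n + 1))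

/-- MV.  Mayer-Vietoris in the form we need.  Uses `StSM`, `StSDA`.
PROOF.  (1) `MVR τ σ` with `b₁, b₂`; `ρ_i = σ - bd b_i ∈ cin A_iᶜ`.  `τ = w + bd e` with `w ∈ cin (A₁ ∩ A₂)ᶜ = cin (A₁ᶜ ∪ A₂ᶜ)`.  `bd w = bd τ = bd b₁ - bd b₂ = ρ₂ - ρ₁ ∈ cin A₁ᶜ ⊔ cin A₂ᶜ`.  By SM: `w = w₁ + w₂ + bd e'`.  Put `b = b₁ - w₁`; `b₁ - b₂ = w₁ + w₂ + bd (e + e')`, so
`bd b = bd b₂ + bd w₂`.  `σ - bd b = ρ₁ + bd w₁ ∈ cin A₁ᶜ` and `= ρ₂ - bd w₂ ∈ cin A₂ᶜ`, so it is in `cin (A₁ ∪ A₂)ᶜ`.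
(2) `bd τ ∈ cin (A₁ᶜ ∪ A₂ᶜ)` is a cycle, SM: `bd τ = u₁ + u₂ + bd e` with `e ∈ cin (A₁ᶜ ∪ A₂ᶜ)`.  `τ' = τ - e`, `bd τ' = u₁ + u₂`, `σ = u₂`, `b₁ = τ'`, `b₂ = 0`: `σ - bd b₁ = - u₁`, `σ - bd b₂ = u₂`.  `bd σ = bd u₂ = - bd u₁` (as `bd bd τ' = 0`) is in `cin A₁ᶜ ∩ cin A₂ᶜ`.
(3) take `σ = bd b_i + ρ_i`, `τ = b₁ - b₂`: `bd τ = ρ₂ - ρ₁ ∈ cin (A₁ ∩ A₂)ᶜ`.  (4) linearity, clear.  (5) from (3) and (1). -/
def StMV : Prop := ∀ (X : Type) [TopologicalSpace X] (A₁ A₂ : Set X), IsClosed A₁ → IsClosed A₂ → ∀ k : ℕ,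
  (∀ τ σ, MVR A₁ A₂ k τ σ → τ ∈ Nul (A₁ ∩ A₂) (k + 1) → σ ∈ Nul (A₁ ∪ A₂) k) ∧
  (∀ τ ∈ Cyc (A₁ ∩ A₂) (k + 1), ∃ τ' σ, τ - τ' ∈ Nul (A₁ ∩ A₂) (k + 1) ∧ σ ∈ Cyc (A₁ ∪ A₂) k ∧ MVR A₁ A₂ k τ' σ) ∧
  (∀ σ, σ ∈ Nul A₁ k → σ ∈ Nul A₂ k → ∃ τ ∈ Cyc (A₁ ∩ A₂) (k + 1), MVR A₁ A₂ k τ σ) ∧
  (∀ (m : ℤ) (τ σ τ' σ'), MVR A₁ A₂ k τ σ → MVR A₁ A₂ k τ' σ' → MVR A₁ A₂ k (τ - m • τ') (σ - m • σ')) ∧
  (PP (A₁ ∩ A₂) (k + 1) → ∀ σ, σ ∈ Nul A₁ k → σ ∈ Nul A₂ k → σ ∈ Nul (A₁ ∪ A₂) k)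

/-- CON.  Compact carriers.
PROOF.  `σ = ρ + bd b`, `ρ ∈ cin (f⁻¹ T)ᶜ`; the union `Q` of the images of the simplices in the support of `ρ` is compact and disjoint from `f⁻¹ T`.  `f '' Q` is compact, hence closed (`Z` is Hausdorff), and disjoint from `T`; `O = (f '' Q)ᶜ`.
(2) `Q` = union of the images of the simplices of `c`. -/
def StCON : Prop :=
  (∀ (X Z : Type) [TopologicalSpace X] [TopologicalSpace Z] [T2Space Z] (f : C(X, Z)) (T : Set Z) (k : ℕ),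
    ∀ σ ∈ Nul (f ⁻¹' T) k, ∃ O : Set Z, IsOpen O ∧ T ⊆ O ∧ σ ∈ Nul (f ⁻¹' O) k) ∧
  (∀ (X : Type) [TopologicalSpace X] (k : ℕ) (c : Ch X k), ∃ Q : Set X, IsCompact Q ∧ c ∈ cin Q k ∧
    ∀ S : Set X, c ∈ cin S k → Q ⊆ S)

/-- MON.  Simple rules.
PROOF.  `cin` is monotone in the set, `cin S ⊓ cin T = cin (S ∩ T)`, `cin univ = ⊤`; `bd` maps `cin S` to `cin S`. -/
def StMON : Prop := ∀ (X : Type) [TopologicalSpace X],
  (∀ (S T : Set X) (n : ℕ), S ⊆ T → cin S n ≤ cin T n) ∧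
  (∀ (S T : Set X) (n : ℕ), cin S n ⊓ cin T n = cin (S ∩ T) n) ∧
  (∀ n : ℕ, cin (univ : Set X) n = ⊤) ∧
  (∀ (S : Set X) (n : ℕ), ∀ c ∈ cin S (n + 1), bd n c ∈ cin S n) ∧
  (∀ (A B : Set X) (n : ℕ), A ⊆ B → Cyc B n ≤ Cyc A n ∧ Nul B n ≤ Nul A n) ∧
  (∀ n : ℕ, PP (∅ : Set X) n)

/-- EXI.  Excision, injectivity.  Uses `StSM`, `StSDA`, `StPSH`, `StMON`.
PROOF.  `i : U → X` the inclusion.  `i c = ρ + bd b` with `ρ ∈ cin Bᶜ`.  `b ∈ cin (U ∪ Bᶜ) = cin univ` and `bd b = i c - ρ ∈ cin U ⊔ cin Bᶜ`, so by SM (`U`, `Bᶜ` open) `b = b₁ + b₂ + bd e`, `b₁ ∈ cin U`, `b₂ ∈ cin Bᶜ`.  `i c - bd b₁ = ρ + bd b₂ ∈ cin Bᶜ`, and it is in `cin U`.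
So `b₁ = i b'` and `i (c - bd b') ∈ cin (U ∩ Bᶜ)`, which gives `c - bd b' ∈ cin (i⁻¹ B)ᶜ` (`StPSH` (6)). -/
def StEXI : Prop := ∀ (X : Type) [TopologicalSpace X] (U B : Set X), IsOpen U → IsClosed B → B ⊆ U →
  ∀ (k : ℕ) (c : Ch ↥U k), push ⟨Subtype.val, continuous_subtype_val⟩ k c ∈ Nul B k → c ∈ Nul (Subtype.val ⁻¹' B) k

/-- OPN.  Open subsets.  Uses `StSM`, `StSDA`, `StPSH`, `StMON`, `StEXI`.
PROOF.  `i : U → X`.  low: `c ∈ Cyc {x} k` in `U`; `i c ∈ Cyc {x} k` in `X`, so `i c ∈ Nul {x}`, EXI.  ori: for `x ∈ U` take `N, c` of `X` and an open `N' ∋ x` with `closure N' ⊆ U ∩ N` (regular space).  SM with `O₁ = U`, `O₂ = (closure N')ᶜ` (union = everything; `bd c ∈ cin Nᶜ ⊆ cin O₂`):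
`c = c₁ + c₂ + bd e`, `c₁ = i c'`.  `bd c₁ = bd c - bd c₂ ∈ cin (closure N')ᶜ`, so `c' ∈ Cyc (i⁻¹ N') 3`.  For `y ∈ N'`: `c - c₁ ∈ Nul {y}`, so `Gen y c₁` in `X` (`Gen` depends only on the class).  `Gen` in `U`: `κ ∈ Cyc {y} 3` in `U`: `i κ - m c₁ ∈ Nul {y}` for some `m`, by EXI
`κ - m c' ∈ Nul {y}`; if `m c' ∈ Nul {y}` in `U` then `m c₁ ∈ Nul {y}` in `X`, `m = 0`. -/
def StOPN : Prop := ∀ (X : Type) [TopologicalSpace X] [T3Space X] (U : Set X), IsOpen U → HM X → HM ↥U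

/-- HOM.  Homeomorphic spaces.  Uses `StPSH`.
PROOF.  `push h` is an isomorphism of chain complexes with inverse `push h.symm`, mapping `cin S` onto `cin (h '' S)`. -/
def StHOM : Prop := ∀ (X Y : Type) [TopologicalSpace X] [TopologicalSpace Y], Nonempty (X ≃ₜ Y) → HM X → HM Y

/-- JOI.  Zero-dimensional chains and paths.
PROOF.  (1) a path `γ` from `a` to `b` in `S`: the `1`-simplex `t ↦ γ (t_1)` (`stdSimplex` on `Fin 2`, second coordinate); its faces are the points (`face 0 0` gives the vertex `1`, `face 0 1` the vertex `0`).  (2) for one simplex `σ : Dl 1 → X` with image in `S` the two end points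
are joined in `S`, so both or none are in `T`; `ev` of its boundary is `0`; linearity.  (3) `Finsupp.linearCombination` on a single; a `0`-simplex is determined by its value (`Dl 0` is a point).  (4) induction on the support, or: fix `a ∈ S` (if the support is empty, `z = 0`); every point
`x` of the support has `r_x ∈ cin S 1` with `bd r_x = x - a`; `z = ∑ z_x x = ∑ z_x (x - a) = bd (∑ z_x r_x)` because `∑ z_x = 0`. -/
def StJOI : Prop := ∀ (X : Type) [TopologicalSpace X] (S : Set X),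
  (∀ a b : X, JoinedIn S a b → ∃ r ∈ cin S 1, bd 0 r = Finsupp.single (pt b) 1 - Finsupp.single (pt a) 1) ∧
  (∀ T : Set X, (∀ a b : X, JoinedIn S a b → (a ∈ T ↔ b ∈ T)) → ∀ r ∈ cin S 1, ev T (bd 0 r) = 0) ∧
  (∀ (T : Set X) (x : X), (x ∈ T → ev T (Finsupp.single (pt x) 1) = 1) ∧ (x ∉ T → ev T (Finsupp.single (pt x) 1) = 0)) ∧
  ((∀ a ∈ S, ∀ b ∈ S, JoinedIn S a b) → ∀ z ∈ cin S 0, ev univ z = 0 → ∃ r ∈ cin S 1, bd 0 r = z) ∧
  (∀ x : X, x ∈ S → Finsupp.single (pt x) 1 ∈ cin S 0)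

end Pool.Agent.Helper13.TR
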