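import Pool.Agent.Helper13.TR.StA

/-!
# Project TR, part B: cutting lemmas and the product theorem (statements)

Setting of most statements: `W` a space with continuous maps `s : W → ℝ`, `q : W → Y` such that `w ↦ (s w, q w)` is a closed embedding in `ℝ × Y` (`W` = closed subset of `ℝ × Y`).
The line over `y` is full if every `r` is `s w` for some `w` with `q w = y`.
-/

set_option autoImplicit false

namespace Pool.Agent.Helper13.TR

open Set Topology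

/-- CUT.  The general cutting lemma.  Uses `StMV`, `StCON`, `StMON`.
PROOF.  `B = q⁻¹ K` is closed.  For `y ∈ K` (a) and CON (with `T = {y}`) give an open `O_y ∋ y` with `σ ∈ Nul (q⁻¹ O_y)`; take `E_y, F_y` from (b) for `O_y`.  The open sets `F_yᶜ`, `y ∈ K`, cover `K`; finitely many points `y_1, ..., y_m`: `K ∩ F_1 ∩ ... ∩ F_m = ∅`.
Put `G_j = K ∩ F_1 ∩ ... ∩ F_j`, closed, `G_0 = K`, `G_m = ∅`.  Downward induction on `j`: `σ ∈ Nul (q⁻¹ G_j)`.  `j = m`: `Nul ∅ = ⊤` (`cin univ`).  Step: `G_j = (G_j ∩ E_{j+1}) ∪ G_{j+1}` as `E ∪ F = K`; `σ ∈ Nul (q⁻¹ (G_j ∩ E_{j+1}))` because `G_j ∩ E_{j+1} ⊆ O_{j+1}` (monotonicity);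
the intersection `M = G_j ∩ E_{j+1} ∩ G_{j+1}` is closed and contained in `E_{j+1} ∩ F_{j+1}`, so `PP (q⁻¹ M) (k+1)` by (b) and part (5) of `StMV` glues.  (`Z` Hausdorff: `K` is closed.) -/
def StCUT : Prop := ∀ (W Z : Type) [TopologicalSpace W] [TopologicalSpace Z] [T2Space Z] (q : C(W, Z)) (K : Set Z) (k : ℕ) (σ : Ch W k),
  IsCompact K →
  (∀ y ∈ K, σ ∈ Nul (q ⁻¹' {y}) k) →
  (∀ y ∈ K, ∀ O : Set Z, IsOpen O → y ∈ O → ∃ E F : Set Z, IsClosed E ∧ IsClosed F ∧ E ∪ F = K ∧ E ⊆ O ∧ y ∉ F ∧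
    ∀ M : Set Z, IsClosed M → M ⊆ E ∩ F → PP (q ⁻¹' M) (k + 1)) →
  σ ∈ Nul (q ⁻¹' K) k

/-- CLO.  Clopen pieces of compact zero-dimensional sets.
PROOF.  `L` compact, Hausdorff, totally disconnected: the clopen sets of the subspace `L` are a basis (`compact_exists_isClopen_in_isOpen`, `TotallyDisconnectedSpace ↥L`).  Take `E ⊆ O ∩ L` clopen in `L` containing `y`, `F = L ∖ E`; both are compact, hence closed in `Z`. -/
def StCLO : Prop := ∀ (Z : Type) [TopologicalSpace Z] [T2Space Z] (L : Set Z), Z0 L → ∀ y ∈ L, ∀ O : Set Z, IsOpen O → y ∈ O →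
  ∃ E F : Set Z, IsClosed E ∧ IsClosed F ∧ E ∪ F = L ∧ E ⊆ O ∧ y ∉ F ∧ E ∩ F = ∅

/-- BIS.  Cutting by a real function.  Uses `StMV`, `StCON`, `StMON`.
PROOF.  `B` closed, `σ ∈ Cyc B k`.  Choose by CON (2) a compact `Q` with `σ ∈ cin Q` and `h '' Q ⊆ (α, β)`.  Bisection:
for closed `J ⊆ ℝ` write `B_J = B ∩ h⁻¹ J`.  `σ ∈ Nul B_{(-∞, α]}` and `σ ∈ Nul B_{[β, ∞)}` because `σ ∈ cin` of the complement.  If `J = J₁ ∪ J₂` is cut at one point `m` then `σ ∈ Nul B_{J₁}`, `σ ∈ Nul B_{J₂}` give `σ ∈ Nul B_J` (part (5) of `StMV` and (a)).  So it is enough to treat `J = [α, β]`.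
If `σ ∉ Nul B_{[α,β]}`, repeated bisection gives nested intervals `J_i` with length `→ 0`, `σ ∉ Nul B_{J_i}`, with common point `r`.  But `σ ∈ Nul (B ∩ h⁻¹ {r})`, `σ = ρ + bd b`, and the compact carrier `Q'` of `ρ` (CON (2)) is disjoint from `B ∩ h⁻¹ {r}`; the compact sets `Q' ∩ B_{J_i}` decrease to `∅`, so one of them is
empty and `σ ∈ Nul B_{J_i}`.  (Or use real induction / a supremum argument / compactness of `[α, β]` as in CUT.) -/
def StBIS : Prop := ∀ (W : Type) [TopologicalSpace W] [T2Space W] (B : Set W) (h : C(W, ℝ)) (k : ℕ) (σ : Ch W k), IsClosed B →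
  (∀ r : ℝ, PP (B ∩ h ⁻¹' {r}) (k + 1)) → (∀ r : ℝ, σ ∈ Nul (B ∩ h ⁻¹' {r}) k) → σ ∈ Nul B k

/-- P1L.  Closed sets on which a real function is injective: `H_1 = 0`.  Uses `StBIS`, `StMON`.
PROOF.  BIS with `k = 1`: `D ∩ h⁻¹ {r}` is empty or a point; `PP ∅ _` and `PP {x} 2`, `PP {x} 1` (`HM.low`); `σ ∈ Cyc D 1 ⊆ Cyc (D ∩ h⁻¹ {r}) 1 ⊆ Nul`. -/
def StP1L : Prop := ∀ (W : Type) [TopologicalSpace W] [T2Space W], HM W → ∀ (D : Set W) (h : C(W, ℝ)), IsClosed D → InjOn h D → PP D 1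

/-- RAY.  Closed subsets of a half line: `H_2 = 0`.  Uses `StMV`, `StCON`, `StMON`.
PROOF.  Let `σ ∈ Cyc D 2`; `D_J = D ∩ h⁻¹ J`.  `S = {r : ℝ | σ ∈ Nul D_{[r, ∞)}}`; upward closed (monotonicity); contains all large `r` (`σ ∈ cin Q`, `Q` compact, `h '' Q` bounded).  Claim: `S = ℝ`; then take `r ≤ ε`: `D_{[r,∞)} = D`.  Otherwise `S` is bounded below, `s = sInf S`.
`D_s = D ∩ h⁻¹ {s}` is empty or one point, so `σ ∈ Nul D_s` (`PP {x} 2` or `Nul ∅ = ⊤`), `σ = ρ₁ + bd b₁`.  There is `δ > 0` with (i) `ρ₁ ∈ cin (D_{[s-δ, s+δ]})ᶜ` [compactness: the carrier `Q₁` of `ρ₁` is disjoint from `D_s` and the compact sets `Q₁ ∩ D_{[s-δ,s+δ]}` decrease to `Q₁ ∩ D_s = ∅`] and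
(ii) if `D_s = {p}`: `D_{[s-δ,s+δ]} ⊆ N`, where `N ∋ p`, `c` are given by `HM.ori` [the compact sets `D_{[s-δ,s+δ]} ∖ N` decrease to `∅`]; if `D_s = ∅`: `D_{[s-δ,s+δ]} = ∅`.
Choose `r ∈ S`, `s ≤ r < s + δ`: `σ = ρ₂ + bd b₂`, `ρ₂ ∈ cin (D_{[r,∞)})ᶜ`.  Put `A₁ = D_{[s-δ, r]}`, `A₂ = D_{[r,∞)}`, closed; `A₁ ∩ A₂ = D_r` is empty or one point `p'`.  If it is empty, part (5) of `StMV` (`PP ∅ 3`) gives `σ ∈ Nul (A₁ ∪ A₂) = Nul D_{[s-δ,∞)}`.
If it is `{p'}` then `D_s ≠ ∅` and `p' ∈ N`; `τ = b₁ - b₂ ∈ Cyc {p'} 3` (`bd τ = ρ₂ - ρ₁`), so by `Gen p' c` `τ - m c ∈ Nul {p'} 3` for some `m`; replace `b₁` by `b₁ - m c`, `ρ₁` by `ρ₁ + m bd c ∈ cin A₁ᶜ` (`c ∈ Cyc N 3`, `A₁ ⊆ N`): then `MVR A₁ A₂ 2 (τ - m c) σ` and part (1) of `StMV` gives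
`σ ∈ Nul (A₁ ∪ A₂)`.  So `s - δ ∈ S`, contradiction. -/
def StRAY : Prop := ∀ (W : Type) [TopologicalSpace W] [T2Space W], HM W → ∀ (D : Set W) (h : C(W, ℝ)), IsClosed D → InjOn h D →
  (∀ a b : ℝ, IsCompact (D ∩ h ⁻¹' Icc a b)) → (∃ ε : ℝ, ∀ w ∈ D, ε ≤ h w) → PP D 2

/-- P2L.  A line which is not full: `H_2 = 0`.  Uses `StRAY`, `StMV`, `StMON`.
PROOF.  `D = q⁻¹ {y}` is closed, `s` is injective on it, `D ∩ s⁻¹ [a,b]` is compact (preimage of the compact set `[a,b] × {y}` under a closed embedding).  `r` is not a value: `D = D⁺ ∪ D⁻`, `D⁺ = D ∩ {s ≥ r}`, `D⁻ = D ∩ {s ≤ r}`, disjoint closed.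
RAY for `D⁺` with `h = s` and for `D⁻` with `h = - s`; `σ ∈ Cyc D 2` is in `Nul D⁺` and `Nul D⁻`; part (5) of `StMV` with `D⁺ ∩ D⁻ = ∅`. -/
def StP2L : Prop := ∀ (W Y : Type) [TopologicalSpace W] [TopologicalSpace Y] [T2Space W] [T2Space Y], HM W → ∀ (s : C(W, ℝ)) (q : C(W, Y)),
  IsClosedEmbedding (fun w => (s w, q w)) → ∀ y : Y, (∃ r : ℝ, ∀ w, q w = y → s w ≠ r) → PP (q ⁻¹' {y}) 2

/-- CA.  Zero-dimensional cuts.  Uses `StCUT`, `StCLO`, `StP2L`, `StMON`.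
PROOF.  CUT with `k = 2`: (a) P2L; (b) CLO, `M ⊆ E ∩ F = ∅`, `PP ∅ 3`. -/
def StCA : Prop := ∀ (W Y : Type) [TopologicalSpace W] [TopologicalSpace Y] [T2Space W] [T2Space Y], HM W → ∀ (s : C(W, ℝ)) (q : C(W, Y)),
  IsClosedEmbedding (fun w => (s w, q w)) → ∀ K : Set Y, Z0 K → (∀ y ∈ K, ∃ r : ℝ, ∀ w, q w = y → s w ≠ r) → PP (q ⁻¹' K) 2

/-- CB.  One-dimensional cuts.  Uses `StCUT`, `StCA`, `StP1L`, `StMV`, `StMON`.
PROOF.  Induction on `Z1 K`.  base: CUT with `k = 1`: (a) P1L for `D = q⁻¹ {y}`, `h = s`; (b) `E, F` of the constructor; a closed `M ⊆ E ∩ F` is compact and totally disconnected, so CA applies (`M ⊆ K`).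
union: `σ ∈ Cyc (q⁻¹ (K₁ ∪ K₂)) 1` is in `Nul (q⁻¹ K_i) 1` by induction; glue with part (5) of `StMV` and CA for `K₁ ∩ K₂`.  (`Z1` sets are compact, hence closed.) -/
def StCB : Prop := ∀ (W Y : Type) [TopologicalSpace W] [TopologicalSpace Y] [T2Space W] [T2Space Y], HM W → ∀ (s : C(W, ℝ)) (q : C(W, Y)),
  IsClosedEmbedding (fun w => (s w, q w)) → ∀ K : Set Y, Z1 K → (∀ y ∈ K, ∃ r : ℝ, ∀ w, q w = y → s w ≠ r) → PP (q ⁻¹' K) 1

/-- SEP.  A closed set with `H_1 = 0` does not separate.  Uses `StJOI`, `StMON`, `StSDA`.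
PROOF.  `[x₁] - [x₀] = bd e` with `e` a path chain (JOI (1), `S = univ`).  `e ∈ Cyc A 1` as `x₀, x₁ ∉ A`.  So `e = ρ + bd b`, `ρ ∈ cin Aᶜ`, `bd ρ = [x₁] - [x₀]` (`bd bd = 0`, part (1) of SDA).  `O₀, O₁` are open, disjoint, with union `Aᶜ`: a path in `Aᶜ` does not leave `O₁` (connectedness of the path), so
`ev O₁ (bd ρ) = 0` by JOI (2), but `ev O₁ ([x₁] - [x₀]) = 1`. -/
def StSEP : Prop := ∀ (W : Type) [TopologicalSpace W] [PathConnectedSpace W] (A O₀ O₁ : Set W), PP A 1 → IsOpen O₀ → IsOpen O₁ →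
  O₀ ∩ O₁ = ∅ → O₀ ∪ O₁ = Aᶜ → O₀.Nonempty → O₁.Nonempty → False

/-- NLI.  A homology 3-manifold is not a subset of a line.  Uses `StSEP`, `StMON`, `StJOI`.
PROOF.  `W` has a point `w`.  `HM.low w 0`: `[w] ∈ Cyc {w} 0 = ⊤`, so `[w] = ρ + bd b`, `ρ ∈ cin {w}ᶜ 0`; `ev univ (bd b) = 0` (JOI (2) with `T = S = univ`), so `ρ ≠ 0` and there is `w' ≠ w`.  `s w ≠ s w'`, say `s w < s w'`; `s` maps the connected `W` onto an interval, so there is `u` with `s w < s u < s w'`.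
`A = {u}`, `O₀ = {s < s u}`, `O₁ = {s > s u}`: `O₀ ∪ O₁ = {u}ᶜ` by injectivity.  SEP with `HM.low u 1`. -/
def StNLI : Prop := ∀ (W : Type) [TopologicalSpace W] [T2Space W] [PathConnectedSpace W], HM W → ∀ s : C(W, ℝ), ¬ Function.Injective s

/-- T1W.  The product theorem, connected case.  Uses `StCB`, `StSEP`, `StNLI`.
PROOF.  Let `w₀ ∈ W`, `y₀ = q w₀` and suppose `(r, y₀)` is not in the closed set `range (s, q)`.  There is an open `O ∋ y₀` with `(r, y)` not in it for all `y ∈ O`.  `s` is not injective by NLI, so `q` is not constant: there is `w₁` with `q w₁ ≠ y₀`.  `G2 Y` for `y₀` and `O ∖ {q w₁}`: `E, F`.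
`A = q⁻¹ (E ∩ F)`, `PP A 1` by CB (`E ∩ F ⊆ O`: no full line).  `Aᶜ = q⁻¹ (Fᶜ) ∪ q⁻¹ (Eᶜ)`, disjoint open (`E ∪ F = univ`), `w₀ ∈ q⁻¹ Fᶜ`, `w₁ ∈ q⁻¹ Eᶜ`.  SEP. -/
def StT1W : Prop := ∀ (W Y : Type) [TopologicalSpace W] [TopologicalSpace Y] [T2Space W] [T2Space Y] [PathConnectedSpace W], HM W → G2 Y →
  ∀ (s : C(W, ℝ)) (q : C(W, Y)), IsClosedEmbedding (fun w => (s w, q w)) → ∀ (w₀ : W) (r : ℝ), ∃ w, q w = q w₀ ∧ s w = r

/-- T1.  The product theorem.  Uses `StT1W`, `StOPN`.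
PROOF.  `C` = path component of `w₀`: open and closed in `W` (`LocallyPathConnectedSpace`), so `HM ↥C` (OPN) and the restrictions of `s, q` to `C` give a closed embedding.  T1W for `↥C` (path connected). -/
def StT1 : Prop := ∀ (W Y : Type) [TopologicalSpace W] [TopologicalSpace Y] [T3Space W] [T2Space Y] [LocallyPathConnectedSpace W], HM W → G2 Y →
  ∀ (s : C(W, ℝ)) (q : C(W, Y)), IsClosedEmbedding (fun w => (s w, q w)) → ∀ (w₀ : W) (r : ℝ), ∃ w, q w = q w₀ ∧ s w = r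

/-! ## Dimension -/

/-- IND.  Small inductive dimension.
PROOF.  (1) induction on `n`; `f` an embedding; `z`, `U` open with `z ∈ U = f⁻¹ U'`; take `V'` for `f z`, `U'`; `V = f⁻¹ V'`; `frontier V ⊆ f⁻¹ (frontier V')` (`Continuous.frontier_preimage_subset`), and `frontier V → frontier V'` is an embedding.
(2) `IndLT 1 L`, `L` compact Hausdorff: every point has arbitrarily small clopen neighbourhoods (empty frontier), so two points of a connected set cannot be different: `isTotallyDisconnected`. -/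
def StIND : Prop :=
  (∀ (n : ℕ) (Y Z : Type) [TopologicalSpace Y] [TopologicalSpace Z] (f : Z → Y), IsEmbedding f → IndLT n Y → IndLT n Z) ∧
  (∀ (Z : Type) [TopologicalSpace Z] [T2Space Z] (L : Set Z), IsCompact L → IndLT 1 ↥L → Z0 L)

/-- G1A.  Uses `StIND`.
PROOF.  `y ∈ O`.  Choose an open `V₀ ∋ y` with compact closure in `O` and `V ⊆ V₀` from `IndLT 2 Y`: `IndLT 1 (frontier V)`.  `E = closure V ⊆ closure V₀ ⊆ O` (locally compact, regular), `F = Vᶜ`, `E ∩ F = frontier V`, compact. -/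
def StG1A : Prop := ∀ (Y : Type) [TopologicalSpace Y] [TopologicalSpace.MetrizableSpace Y] [LocallyCompactSpace Y], IndLT 2 Y → G1 Y

/-- G2A.  Uses `StIND`.
PROOF.  As in G1A with `V` from `IndLT 3 Y`: `K = frontier V` is compact and `IndLT 2 K`; show `Z1 K` by the constructor `base`: for `y ∈ K`, `O` open: take a relatively open `V_K ∋ y` of the subspace `K` with closure in `O ∩ K` (regularity, then `IndLT 2`) and `IndLT 1 (frontier V_K)`.
`E` = image of `closure V_K`, `F` = image of `V_Kᶜ`: compact, `E ∪ F = K`, `E ∩ F` = image of the frontier, `Z0` by `StIND` (compact; transport along the embedding). -/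
def StG2A : Prop := ∀ (Y : Type) [TopologicalSpace Y] [TopologicalSpace.MetrizableSpace Y] [LocallyCompactSpace Y], IndLT 3 Y → G2 Y

/-- G2B.  Uses `StIND`.
PROOF.  `y = (u, v)`; choose `a < u < b` and an open `V₀ ∋ v` with compact closure, `[a,b] × closure V₀ ⊆ O`, and `V ⊆ V₀`, `v ∈ V`, with `IndLT 1 (frontier V)`.  `E = [a,b] × closure V`, `F = ((a,b) × V)ᶜ`.  `E ∩ F = K₁ ∪ K₂`, `K₁ = {a,b} × closure V`, `K₂ = [a,b] × frontier V`,
`K₁ ∩ K₂ = {a,b} × frontier V`, compact totally disconnected (a connected subset projects to a point of `{a,b}` and to a point of `frontier V`).  `Z1 K₁`: `base`: for `(a, v')` and `O'`: `v'` has in the compact space `closure V` (`IndLT 2` as a subspace of `C`) a relatively open neighbourhood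
`V'` with small closure and `IndLT 1` frontier: `E' = {a} × closure V'`, `F' = K₁ ∖ ({a} × V')`.  `Z1 K₂`: `base`: for `(u', v')`, `O'`: a clopen neighbourhood `L'` of `v'` in `frontier V` (compact totally disconnected, `compact_exists_isClopen_in_isOpen`) and `[c, d] ∋ u'` a neighbourhood of `u'` in `[a,b]`:
`E' = ([c,d] ∩ [a,b]) × L'`, `F' = K₂ ∖ ((c,d) × L')`, `E' ∩ F' ⊆ {c,d} × L'`, closed. -/
def StG2B : Prop := ∀ (Y : Type) [TopologicalSpace Y] [TopologicalSpace.MetrizableSpace Y] [LocallyCompactSpace Y], IndLT 2 Y → G2 (ℝ × Y)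

end Pool.Agent.Helper13.TR
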