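import Pool.Agent.Helper13.TR.StB

/-!
# Project TR, part C: recognition of 1-manifolds, localisation, final statements
-/

set_option autoImplicit false

namespace Pool.Agent.Helper13.TR

open Set Topology

/-- PRO.  Products.  Uses `StT1`.
PROOF.  T1 with `s = (f ·).1`, `q = (f ·).2`.  `A = {y | (0, y) ∈ range f}` is closed. -/
def StPRO : Prop := ∀ (W Y : Type) [TopologicalSpace W] [TopologicalSpace Y] [T3Space W] [T2Space Y] [LocallyPathConnectedSpace W], HM W → G2 Y →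
  ∀ f : W → ℝ × Y, IsClosedEmbedding f → ∃ A : Set Y, IsClosed A ∧ range f = {p | p.2 ∈ A}

/-- PR2.  Products with the plane.  Uses `StPRO`, `StG2B`.
PROOF.  `G2 (ℝ × V)` by G2B.  PRO for `f` (`Y = ℝ × V`): `range f` is invariant in the first coordinate.  PRO for `f` followed by the homeomorphism `(a, b, v) ↦ (b, a, v)`: invariant in the second one.  `A = {v | (0, 0, v) ∈ range f}`. -/
def StPR2 : Prop := ∀ (W V : Type) [TopologicalSpace W] [TopologicalSpace V] [T3Space W] [TopologicalSpace.MetrizableSpace V] [LocallyCompactSpace V]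
  [LocallyPathConnectedSpace W], HM W → IndLT 2 V →
  ∀ f : W → ℝ × ℝ × V, IsClosedEmbedding f → ∃ A : Set V, IsClosed A ∧ range f = {p | p.2.2 ∈ A}

/-- SUS.  Half of the suspension theorem.  Uses `StSM`, `StSDA`, `StPRI`, `StPSH`, `StMON`, `StCON`.
PROOF.  `x₀ = (0, y)`, `O₁ = {p | p.1 ≠ 0}`, `O₂ = {p | p.2 ≠ y}`, `O₁ ∪ O₂ = {x₀}ᶜ`.  Let `c ∈ Cyc {x₀} (k+1)`.  SM for `bd c` (`bd bd c = 0`): `bd c = u₁ + u₂ + bd e`, `e ∈ cin {x₀}ᶜ`; replace `c` by `c - e`: `bd c = u₁ + u₂`, `u_i ∈ cin O_i`.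
`O₁ = O⁺ ∪ O⁻` (`p.1 > 0`, `p.1 < 0`); a simplex in `O₁` is in `O⁺` or in `O⁻` (connected): `u₁ = u⁺ + u⁻`.  If `k ≥ 1`: `bd u⁺ + bd u⁻ = - bd u₂ ∈ cin O₂`, hence `bd u⁺, bd u⁻ ∈ cin O₂` (disjoint supports).
`π : ℝ × Y → Y`, `j z = (1, z)`.  `π u⁺ ∈ Cyc {y} k`, so `π u⁺ = ρ + bd b`, `ρ ∈ cin {y}ᶜ`.  Homotopy `H_t (s, z) = ((1 - t) s + t, z)` from `id` to `j π`: PRI: `bd P u⁺ + P bd u⁺ = j π u⁺ - u⁺` with `P u⁺ ∈ cin O⁺`, `P bd u⁺ ∈ cin O₂` (without this term if `k = 0`).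
So `u⁺ = bd b⁺ + r⁺`, `b⁺ = j b - P u⁺ ∈ cin O⁺ ⊆ cin {x₀}ᶜ`, `r⁺ = j ρ - P bd u⁺ ∈ cin O₂`.  Same for `u⁻` (with `j z = (-1, z)`, `H_t = ((1-t) s - t, z)`).  `c'' = c - b⁺ - b⁻`, `bd c'' = r⁺ + r⁻ + u₂ ∈ cin O₂`, and it is enough that `c'' ∈ Nul {x₀}`.
`c'' ∈ cin Q` with `Q` compact, `p.1 > -M` on `Q`.  `T (s, z) = (s + M, z)`: `T c'' ∈ cin O⁺`; PRI for `(s + t M, z)`: `c'' = T c'' - P bd c'' - bd P c''` with `P bd c'' ∈ cin O₂`. -/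
def StSUS : Prop := ∀ (Y : Type) [TopologicalSpace Y] [T2Space Y] (y : Y) (k : ℕ), PP {y} k → PP {((0 : ℝ), y)} (k + 1)

/-- CYC.  `H_1` relative to the complement of a plane is cyclic.  Uses `StRAY`, `StBIS`, `StP1L`, `StMV`, `StMON`.
PROOF.  `B = {p.2.2 = t}`, `B⁺ = B ∩ {p.2.1 ≥ 0}`, `B⁻ = B ∩ {p.2.1 ≤ 0}`, `l = B⁺ ∩ B⁻`, `l⁺ = l ∩ {p.1 ≥ 0}`, `l⁻ = l ∩ {p.1 ≤ 0}`, `l⁺ ∩ l⁻ = {p₀}`, `p₀ = (0, 0, t)`.
`PP l^± 2` by RAY (`h = ± p.1`).  `PP B⁺ 1`: BIS with `h = p.1`: the fibres `B⁺ ∩ {p.1 = r}` have `PP _ 2` by RAY (`h = p.2.1`) and `PP _ 1` by P1L.  `B⁻` in the same way (`h = - p.2.1` in RAY).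
`HM.ori p₀`: `g = c` with `Gen p₀ g`, `g ∈ Cyc {p₀} 3`.  MV (2) for `l^±`, `k = 2`: `g - g' ∈ Nul {p₀}`, `MVR l⁺ l⁻ 2 g' θ`, `θ ∈ Cyc l 2`.  MV (2) for `B^±`, `k = 1`: `θ - θ' ∈ Nul l 2`, `MVR B⁺ B⁻ 1 θ' ε`, `ε ∈ Cyc B 1`.
Let `e ∈ Cyc B 1`.  `e ∈ Nul B^±` (monotonicity of `Cyc`), MV (3): `MVR B⁺ B⁻ 1 τ e`, `τ ∈ Cyc l 2`; `τ ∈ Nul l^±`, `MVR l⁺ l⁻ 2 κ τ`, `κ ∈ Cyc {p₀} 3`; `κ - m g ∈ Nul {p₀}`.  Then `κ - m g' ∈ Nul {p₀}`, `MVR l⁺ l⁻ 2 (κ - m g') (τ - m θ)`, so `τ - m θ ∈ Nul l 2` (MV (1)),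
`τ - m θ' ∈ Nul l 2`, `MVR B⁺ B⁻ 1 (τ - m θ') (e - m ε)`, `e - m ε ∈ Nul B 1`. -/
def StCYC : Prop := ∀ (A : Type) [TopologicalSpace A] [T2Space A], HM (ℝ × ℝ × A) → ∀ t : A,
  ∃ ε ∈ Cyc {p : ℝ × ℝ × A | p.2.2 = t} 1, ∀ e ∈ Cyc {p : ℝ × ℝ × A | p.2.2 = t} 1, ∃ m : ℤ, e - m • ε ∈ Nul {p : ℝ × ℝ × A | p.2.2 = t} 1

/-- UPB.  At most two sides.  Uses `StCYC`, `StJOI`, `StMON`, `StSDA`.
PROOF.  Suppose `a, b, c` pairwise not joined in `{t}ᶜ`.  `W = ℝ × ℝ × A` is path connected; path chains `e₁` from `(0,0,a)` to `(0,0,b)`, `e₂` from `(0,0,a)` to `(0,0,c)` (JOI (1)), both in `Cyc B 1`.  `e_i - m_i ε ∈ Nul B 1`.  `κ = m₂ e₁ - m₁ e₂ ∈ Nul B 1`, `κ = ρ + bd β`, `bd κ = bd ρ`, `ρ ∈ cin Bᶜ`.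
`T_b = {p | JoinedIn {t}ᶜ b p.2.2}` is saturated for paths in `Bᶜ` (project the path): `ev T_b (bd ρ) = 0`, `ev T_b (bd κ) = m₂` (`a, c ∉ T_b`).  So `m₂ = 0`, in the same way `m₁ = 0` (`T_c`: `ev T_c (bd κ) = - m₁`).  Then `e₁ ∈ Nul B 1` and `ev T_b (bd e₁) = 1 = 0`. -/
def StUPB : Prop := ∀ (A : Type) [TopologicalSpace A] [T2Space A] [PathConnectedSpace A], HM (ℝ × ℝ × A) →
  ∀ t a b c : A, a ≠ t → b ≠ t → c ≠ t → JoinedIn {t}ᶜ a b ∨ JoinedIn {t}ᶜ b c ∨ JoinedIn {t}ᶜ a c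

/-- LOB.  At least two sides.  Uses `StSUS`, `StSM`, `StSDA`, `StJOI`, `StMON`.
PROOF.  `¬ PP {t} 1` in `A`: otherwise SUS twice gives `PP {(0,0,t)} 3` in `ℝ × ℝ × A`, and with `Gen` of `c` from `HM.ori`: `c ∈ Nul`, `1 • c ∈ Nul`, `1 = 0`.  So there is `c ∈ Cyc {t} 1`, `c ∉ Nul {t} 1`.  Suppose all pairs of `A' ∖ {t}` are joined in `A' ∖ {t}`.
SM with `O₁ = A'`, `O₂ = {t}ᶜ` (`O₁ ∪ O₂ = univ`, `bd c ∈ cin O₂`): `c = c₁ + c₂ + bd e`.  `bd c₁ = bd c - bd c₂ ∈ cin {t}ᶜ` and `∈ cin A'`, so `∈ cin (A' ∖ {t}) 0`; `ev univ (bd c₁) = 0` (JOI (2)); JOI (4): `bd c₁ = bd r`, `r ∈ cin (A' ∖ {t}) 1`.  `c₁ - r ∈ cin A' 1` is a cycle, `= bd e'`.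
So `c = r + c₂ + bd (e + e') ∈ Nul {t} 1`, contradiction. -/
def StLOB : Prop := ∀ (A : Type) [TopologicalSpace A] [T2Space A] (A' : Set A) (t : A), HM (ℝ × ℝ × A) → IsOpen A' → t ∈ A' →
  (∀ z ∈ cin A' 1, bd 0 z = 0 → ∃ e : Ch A 2, bd 1 e = z) → ∃ a ∈ A' \ {t}, ∃ b ∈ A' \ {t}, ¬ JoinedIn (A' \ {t}) a b

/-- DBL.  Any two points are separated by a third.  Uses `StCUT`, `StCLO`, `StJOI`, `StSDA`, `StMON`.
PROOF.  `G1` for `a` and `O = {b}ᶜ`: `E, F`, `K = E ∩ F`, `Z0 K`, `a ∈ Fᶜ`, `b ∈ Eᶜ`, `Kᶜ = Fᶜ ∪ Eᶜ` disjoint.  `e` = path chain in `A'` from `a` to `b` (JOI (1)).  If `e ∈ Nul {τ} 1` for all `τ ∈ K` then CUT (`q = id`, `k = 1`; (b) by CLO, `M = ∅`) gives `e ∈ Nul K 1`, `e = ρ + bd β`,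
`ev Eᶜ (bd ρ) = 0` (JOI (2): a path in `Kᶜ` stays in `Eᶜ` or in `Fᶜ`), but `bd ρ = [b] - [a]` has `ev Eᶜ = 1`.  So there is `τ ∈ K` with `e ∉ Nul {τ} 1`.  `τ ∈ A'`, otherwise `e ∈ cin {τ}ᶜ`.  `τ ≠ a, b`.  If `a, b` were joined in `A' ∖ {τ}`: `r ∈ cin (A' ∖ {τ}) 1`, `bd r = [b] - [a]`,
`e - r` is a cycle in `cin A'`, `= bd e'`, so `e = r + bd e' ∈ Nul {τ} 1`. -/
def StDBL : Prop := ∀ (A : Type) [TopologicalSpace A] [T2Space A] (A' : Set A), IsOpen A' → IsPathConnected A' → G1 A →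
  (∀ z ∈ cin A' 1, bd 0 z = 0 → ∃ e : Ch A 2, bd 1 e = z) →
  ∀ a ∈ A', ∀ b ∈ A', a ≠ b → ∃ τ ∈ A', τ ≠ a ∧ τ ≠ b ∧ ¬ JoinedIn (A' \ {τ}) a b

/-- TRI.  Of three points one separates the other two.
PROOF.  Write `J z a b` for `JoinedIn {z}ᶜ a b` and `sep z a b` for `z ≠ a ∧ z ≠ b ∧ ¬ J z a b`.  (i) `M(a,b) = {z | sep z a b} ∪ {a, b}` is closed: for `z ∉ M(a,b)` there is a path `γ` from `a` to `b` in `{z}ᶜ`; the complement of the compact set `range γ` is a neighbourhood of `z` disjoint from `M(a,b)`.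
Suppose the claim fails for `x, y, p`.  `M_x = {z | sep z x y ∧ sep z x p}`, `M_p = {z | sep z p x ∧ sep z p y}`.  `M_x ∪ {x} = M(x,y) ∩ M(x,p)` and `M_p ∪ {p} = M(p,x) ∩ M(p,y)` (use that `y` does not separate `x, p`, etc.), closed; disjoint by (2a).  If `sep z x p` then `z ≠ y` and by (2a) `z ∈ M_x ∪ M_p`.
Path `δ : [0,1] → Y` from `x` to `p`; `F_x = δ⁻¹ (M_x ∪ {x}) ∋ 0`, `F_p = δ⁻¹ (M_p ∪ {p}) ∋ 1`, disjoint closed; `v = min F_p`, `u = max (F_x ∩ [0, v]) < v`; `a = δ u`, `b = δ v`, `a ≠ b`.  By (3) `sep τ a b` for some `τ`; `τ ∈ δ [u, v]` (otherwise this part of the path joins `a, b`), `τ = δ w`, `u < w < v`,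
so `τ ∉ M_x ∪ {x} ∪ M_p ∪ {p}`, hence `τ ≠ x, p` and `J τ x p`.  By (2a) for `a, b, x`: `J τ x a` or `J τ x b`.  If `J τ x a`: then `¬ J τ x b`, so `b ≠ p` (as `J τ x p`), `b ∈ M_p`; a path from `x` to `p` in `{τ}ᶜ` avoids `b` (points of it are joined to `x`), so `J b x p`, contradiction to `sep b p x`.
If `J τ x b`: then `¬ J τ x a`, `a ≠ x`, `a ∈ M_x`, and the same path from `x` to `p` avoids `a`, contradiction to `sep a x p`. -/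
def StTRI : Prop := ∀ (Y : Type) [TopologicalSpace Y] [T2Space Y] [PathConnectedSpace Y],
  (∀ t a b c : Y, a ≠ t → b ≠ t → c ≠ t → JoinedIn {t}ᶜ a b ∨ JoinedIn {t}ᶜ b c ∨ JoinedIn {t}ᶜ a c) →
  (∀ a b : Y, a ≠ b → ∃ τ, τ ≠ a ∧ τ ≠ b ∧ ¬ JoinedIn {τ}ᶜ a b) →
  ∀ x y p : Y, x ≠ y → y ≠ p → x ≠ p → ¬ JoinedIn {x}ᶜ y p ∨ ¬ JoinedIn {y}ᶜ x p ∨ ¬ JoinedIn {p}ᶜ x y

/-- ORD.  The order.  Uses `StTRI`.
PROOF.  Notation of TRI.  (F6) if `sep p x y` then `J x y p` and `J y x p`: a path from `y` to `p`, cut at its first hit of `p`, stays before in the path component of `y` in `{p}ᶜ`, which does not contain `x`.  Fix `p` and `a₀, b₀` with `¬ J p a₀ b₀` (2b); `R(p) = {y ≠ p | J p y b₀}`, `L(p) = {y ≠ p | J p y a₀}`;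
`{p}ᶜ` is their disjoint union (2a).  Define `r x y`: `x = p`: `y ∈ R(p)`; `x ∈ R(p)`: `y ≠ x ∧ ¬ J x y p`; `x ∈ L(p)`: `y ≠ x ∧ J x y p`.  Claim A: for `x ≠ y` exactly one of `r x y`, `r y x`.  `x = p` or `y = p`: clear.  `x, y ∈ R(p)`: not both `sep x y p`, `sep y x p` by (F6) (`sep x y p` gives `J y x p`),
and one of them by TRI (`J p x y`).  `x, y ∈ L(p)`: the same with negations.  `x ∈ L(p)`, `y ∈ R(p)`: `sep p x y`, (F6): `r x y` and not `r y x`.  Put `R_x = {y | r x y}`, `L_x = {y | r y x} = {y ≠ x | ¬ r x y}`: they are the two path components of `{x}ᶜ` (2a), (2b), hence nonempty and open.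
Transitive: let `r x y`.  `L_x ∪ {x}` is path connected (cut a path at the first hit of `x`), misses `y` and contains `x ∈ L_y`; so `L_x ∪ {x} ⊆ L_y` and `R_y ⊆ R_x`.  Dense: `r x y`; `τ` with `sep τ x y` by (3): `x ∈ L_τ, y ∈ R_τ` (fine) or `x ∈ R_τ, y ∈ L_τ`: then `r y τ`, `r τ x`, `r y x`, contradiction. -/
def StORD : Prop := ∀ (Y : Type) [TopologicalSpace Y] [T2Space Y] [PathConnectedSpace Y] [LocallyPathConnectedSpace Y],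
  (∀ t a b c : Y, a ≠ t → b ≠ t → c ≠ t → JoinedIn {t}ᶜ a b ∨ JoinedIn {t}ᶜ b c ∨ JoinedIn {t}ᶜ a c) →
  (∀ t : Y, ∃ a b : Y, a ≠ t ∧ b ≠ t ∧ ¬ JoinedIn {t}ᶜ a b) →
  (∀ a b : Y, a ≠ b → ∃ τ, τ ≠ a ∧ τ ≠ b ∧ ¬ JoinedIn {τ}ᶜ a b) →
  ∃ r : Y → Y → Prop, (∀ x, ¬ r x x) ∧ (∀ x y z, r x y → r y z → r x z) ∧ (∀ x y, x ≠ y → r x y ∨ r y x) ∧
    (∀ x, IsOpen {y | r x y} ∧ IsOpen {y | r y x}) ∧ (∀ x, (∃ y, r x y) ∧ ∃ y, r y x) ∧ ∀ x y, r x y → ∃ z, r x z ∧ r z y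

/-- PSI.  A chart from an order.
PROOF.  (B) if `S` is preconnected, `x, y ∈ S`, `r x z`, `r z y` then `z ∈ S` (otherwise `S` is covered by the disjoint open sets `{r · z}`, `{r z ·}`, both meeting it).  `q n` a dense sequence, `d` a metric.  `f_n x = min 1 (infDist x {y | ¬ r (q n) y})`: continuous, `0` if `¬ r (q n) x`, positive if `r (q n) x`.
`g_n x = sup {f_n w | w = x ∨ r w x}`.  Monotone.  Continuous at `x`: `O ∋ x` a preconnected neighbourhood on which `|f_n w - f_n x| < ε` (`LocallyConnectedSpace`); for `x' ∈ O` every `w ≤ x'` with not `w ≤ x` is `x'` or between `x` and `x'`, so in `O` by (B) and `f_n w ≤ f_n x + ε ≤ g_n x + ε`; in the same way `g_n x ≤ g_n x' + 2 ε`.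
`ψ = ∑ 2^(-n) g_n` continuous; strictly increasing: `r x x'`: the open set `{y | r x y ∧ r y x'}` is nonempty, contains some `q n`; `g_n x = 0` (`w ≤ x` implies `¬ r (q n) w`), `g_n x' ≥ f_n x' > 0`.  So `ψ` is injective.  Open: `x ∈ U` open, `O ⊆ U` a preconnected neighbourhood of `x`.  `x` is in the closure of `{r · x}`
(otherwise `{x} ∪ {r x ·}` and `{r · x}` would be open, disjoint, nonempty, covering the connected space) and of `{r x ·}`: `y, z ∈ O` with `r y x`, `r x z`; `ψ '' O` is an interval containing `ψ y < ψ x < ψ z`, so a neighbourhood of `ψ x`. -/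
def StPSI : Prop := ∀ (Y : Type) [TopologicalSpace Y] [TopologicalSpace.MetrizableSpace Y] [TopologicalSpace.SeparableSpace Y] [LocallyConnectedSpace Y]
  [PreconnectedSpace Y] (r : Y → Y → Prop), (∀ x, ¬ r x x) → (∀ x y z, r x y → r y z → r x z) → (∀ x y, x ≠ y → r x y ∨ r y x) →
    (∀ x, IsOpen {y | r x y} ∧ IsOpen {y | r y x}) → (∀ x, (∃ y, r x y) ∧ ∃ y, r y x) → (∀ x y, r x y → ∃ z, r x z ∧ r z y) →
    ∃ f : Y → ℝ, IsOpenEmbedding f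

/-- A1D.  The factor is a 1-manifold.  Uses `StOPN`, `StHOM`, `StUPB`, `StLOB`, `StDBL`, `StORD`, `StPSI`, `StMON`.
PROOF.  `O ∋ a` open with compact closure; `V` from `LH1` for `O`; `U` = path component of `a` in `V`: open, path connected, `cin U ≤ cin V`.  `Y = ↥U`: path connected, locally path connected, metrizable, separable (subspace of the compact metrizable `closure O`).
(2a): `ℝ × ℝ × ↥U` is homeomorphic to the open subset `{p | p.2.2 ∈ U}` of `ℝ × ℝ × A`, so `HM` by OPN and HOM; UPB.  (2b) LOB, (3) DBL with `A' = U`; a path in `{t}ᶜ` of `↥U` gives a path in `U ∖ {t}` of `A` and conversely.  ORD, PSI. -/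
def StA1D : Prop := ∀ (A : Type) [TopologicalSpace A] [TopologicalSpace.MetrizableSpace A] [LocallyCompactSpace A] [LocallyPathConnectedSpace A],
  HM (ℝ × ℝ × A) → G1 A → LH1 A → ∀ a : A, ∃ U : Set A, IsOpen U ∧ a ∈ U ∧ ∃ f : ↥U → ℝ, IsOpenEmbedding f

/-- Local contractibility: every neighbourhood `U` of `x` contains a neighbourhood `V` of `x` which is contractible in `U`. -/
def LocContr (X : Type) [TopologicalSpace X] : Prop :=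
  ∀ (x : X) (U : Set X), IsOpen U → x ∈ U → ∃ V : Set X, IsOpen V ∧ x ∈ V ∧ V ⊆ U ∧
    ∃ (H : C(unitInterval × ↥V, X)) (x₁ : X), (∀ v, H (0, v) = v) ∧ (∀ v, H (1, v) = x₁) ∧ ∀ t v, H (t, v) ∈ U

/-- LCP.  Uses `StPRI`, `StPSH`, `StSDA`, `StMON`.
PROOF.  (1) `V ⊆` path component of `x` in `U` (the paths `t ↦ H (t, v)` end in the same point `x₁`), so the path components of open sets are neighbourhoods of their points.  (2) `z ∈ cin V 1` a cycle: `z = i z'` (`StPSH` (5), `i : V → X`), `bd z' = 0` (injectivity).  PRI for the homotopy `H` from `i` to the constant map `g`: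
`bd (P z') = g z' - z`, `P z' ∈ cin U 2`.  `g z' = m • κ₁`, `κ₁` the constant `1`-simplex `x₁`, `bd κ₂ = κ₁` for the constant `2`-simplex (three faces, signs `+ - +`), `x₁ ∈ U`.  `e = m • κ₂ - P z'`. -/
def StLCP : Prop := ∀ (X : Type) [TopologicalSpace X], LocContr X → LocallyPathConnectedSpace X ∧ LH1 X

/-- TRA.  From the product to the factor.  Uses `StPSH`.
PROOF.  `a ∈ U`; `U' = {w | (h w).2.2 ∈ U}`, `w₀ = h.symm (0,0,a)`; `V'` from `LH1 W`; `V = {a' | h.symm (0,0,a') ∈ V'}`, `⊆ U`.  `j a' = h.symm (0,0,a')`, `π w = (h w).2.2`, `π j = id`.  `z ∈ cin V 1` a cycle: `j z = bd e`, `e ∈ cin U' 2`; `π e ∈ cin U 2`, `bd (π e) = z`.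
Locally path connected: `π` is open, continuous, surjective (`IsOpenMap`), images of path connected neighbourhoods. -/
def StTRA : Prop := ∀ (W A : Type) [TopologicalSpace W] [TopologicalSpace A] (_ : W ≃ₜ ℝ × ℝ × A),
  (LH1 W → LH1 A) ∧ (LocallyPathConnectedSpace W → LocallyPathConnectedSpace A)

/-- LOC.  Localisation.
PROOF.  Take a compact neighbourhood `N' ⊆ N` of `x`, `N'' = interior N'`.  `J` = image of `N'` under `j`, compact; `C'` = its projection to `C`, compact.  `j (N'')` is open in `J` (embedding): `j (N'') = J ∩ O`, `O` open in `G × C`.  Choose `G₀ ∋ (j x).1` open, homeomorphic to `G` (hypothesis), and `V₀ ∋ (j x).2` open with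
`G₀ × V₀ ⊆ O`.  `U = {w ∈ N'' | j w ∈ G₀ × V₀}`, open in `X`.  `V = {c : ↥C' | c ∈ V₀}`, open in the compact space `C'`, so locally compact.  `f w = (φ (j w).1, (j w).2)`, `φ : G₀ ≃ₜ G`; it is an embedding and its range corresponds to `J ∩ (G₀ × V₀)`, closed in `G₀ × V`. -/
def StLOC : Prop := ∀ (G X C : Type) [TopologicalSpace G] [T2Space G] [TopologicalSpace X] [TopologicalSpace.MetrizableSpace X] [LocallyCompactSpace X]
  [TopologicalSpace C] [TopologicalSpace.MetrizableSpace C],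
  (∀ (g : G) (O : Set G), IsOpen O → g ∈ O → ∃ O' : Set G, IsOpen O' ∧ g ∈ O' ∧ O' ⊆ O ∧ Nonempty (↥O' ≃ₜ G)) →
  ∀ (x : X) (N : Set X), N ∈ 𝓝 x → ∀ j : ↥N → G × C, IsEmbedding j →
    ∃ U : Set X, IsOpen U ∧ x ∈ U ∧ ∃ (V : Type) (_ : TopologicalSpace V), TopologicalSpace.MetrizableSpace V ∧ LocallyCompactSpace V ∧
      (∃ i : V → C, IsEmbedding i) ∧ ∃ f : ↥U → G × V, IsClosedEmbedding f

/-- GCO.  Open intervals.
PROOF.  `(a, b) ≃ₜ ℝ` (for example by `x ↦ (x - c) / ((x - a) (b - x))`-type maps, `tan`, or `Homeomorph` of balls in Mathlib), products. -/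
def StGCO : Prop :=
  (∀ (g : ℝ) (O : Set ℝ), IsOpen O → g ∈ O → ∃ O' : Set ℝ, IsOpen O' ∧ g ∈ O' ∧ O' ⊆ O ∧ Nonempty (↥O' ≃ₜ ℝ)) ∧
  (∀ (g : ℝ × ℝ) (O : Set (ℝ × ℝ)), IsOpen O → g ∈ O → ∃ O' : Set (ℝ × ℝ), IsOpen O' ∧ g ∈ O' ∧ O' ⊆ O ∧ Nonempty (↥O' ≃ₜ ℝ × ℝ))

/-- FN1.  Local product structure.  Uses `StLOC`, `StGCO`, `StIND`, `StG2A`, `StPRO`, `StOPN`.
PROOF.  LOC with `G = ℝ`: `U, V, f`; `IndLT 3 V` (IND (1)), `G2 V` (G2A).  `HM ↥U` (OPN), `↥U` is `T3` and locally path connected (open subspace).  PRO: `range f = {p | p.2 ∈ A}`, `↥U ≃ₜ range f ≃ₜ ℝ × ↥A`. -/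
def StFN1 : Prop := ∀ (X Y : Type) [TopologicalSpace X] [TopologicalSpace.MetrizableSpace X] [LocallyCompactSpace X] [LocallyPathConnectedSpace X]
  [TopologicalSpace Y] [TopologicalSpace.MetrizableSpace Y], HM X → IndLT 3 Y →
  ∀ (x : X) (N : Set X), N ∈ 𝓝 x → ∀ j : ↥N → ℝ × Y, IsEmbedding j →
    ∃ U : Set X, IsOpen U ∧ x ∈ U ∧ ∃ (A : Type) (_ : TopologicalSpace A), Nonempty (↥U ≃ₜ ℝ × A)

/-- FN2.  Manifold points.  Uses `StLOC`, `StGCO`, `StIND`, `StG1A`, `StPR2`, `StOPN`, `StHOM`, `StTRA`, `StA1D`, `StPSH`, `StMON`.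
PROOF.  LOC with `G = ℝ × ℝ` (reassociate): `U, V`, closed embedding `f : ↥U → ℝ × ℝ × V`; `IndLT 2 V` (IND (1)).  `HM ↥U` (OPN).  PR2: `range f = {p | p.2.2 ∈ A}`; `↥U ≃ₜ ℝ × ℝ × ↥A`; `A` closed in `V`: `↥A` is metrizable, locally compact, `IndLT 2 ↥A` (IND), `G1 ↥A` (G1A).  `HM (ℝ × ℝ × ↥A)` (HOM),
`LH1 ↥A` and locally path connected (TRA; `LH1 ↥U` follows from `LH1 X`: intersect with the open set `U` and use `StPSH`; or from its definition), A1D for the third coordinate of the image of `x`: `U'' ⊆ A` open, `g : U'' → ℝ` an open embedding.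
The open set of the `w ∈ U` with `(f w).2.2 ∈ U''` is homeomorphic to `ℝ × ℝ × U''`, and `(a, b, u) ↦ (a, b, g u)` is an open embedding. -/
def StFN2 : Prop := ∀ (X C : Type) [TopologicalSpace X] [TopologicalSpace.MetrizableSpace X] [LocallyCompactSpace X] [LocallyPathConnectedSpace X]
  [TopologicalSpace C] [TopologicalSpace.MetrizableSpace C], HM X → LH1 X → IndLT 2 C →
  ∀ (x : X) (N : Set X), N ∈ 𝓝 x → ∀ j : ↥N → ℝ × ℝ × C, IsEmbedding j →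
    ∃ U : Set X, IsOpen U ∧ x ∈ U ∧ ∃ f : ↥U → ℝ × ℝ × ℝ, IsOpenEmbedding f

end Pool.Agent.Helper13.TR
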